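import Pool.Agent.Helper26.VSV.Tmp
import Pool.Agent.Helper7.GZ.Sys

/-! TAME TRIANGULAR MAPS AND CELLS; joins of a sequence of partitions which are known to a partition: a slow join. -/

set_option autoImplicit false

namespace Pool.Agent.Helper26.VSV

open Finset Filter Topology Matrix MvPolynomial Pool.Agent.Helper69.RK Pool.Agent.Helper31.EC
open Pool.Agent.Helper31.EC.Sp
open Pool.Agent.Helper40.EL Pool.Agent.Helper89.LX Pool.Agent.Helper3.LF Pool.Agent.Helper84.MT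
open Pool.Agent.Helper7.GZ (PLe_cell_typ)
open Pool.Agent.Helper77.WDG (nrm nrm_nonneg eval_sub_le)
open Pool.Agent.Helper29.MX (Rsl)

noncomputable section

variable {S T : Sp} {M M' : ℕ}

/-- **CELLS**: the cells of the second point are known to the cells of the first point -/
theorem TM.cell {A B : S.VV M} (t : TM A B) {r : ℝ} (hr : r ≤ 1) :
    PLe (fun k => fc (Setoid.ker (B.cellv r k))) (fun k => fc (Setoid.ker (A.cellv r k))) := by
  obtain ⟨Kc, hKc, hc⟩ := t.cf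
  obtain ⟨Kt, hKt, ht⟩ := t.pt
  obtain ⟨Kx, hKx, hx⟩ := A.bd
  have hS : S.Sub (fun k => (Kt k + Kt k) + Kc k * (t.D * (Kx k + 1) ^ t.D)) :=
    (hKt.add hKt).add (hKc.mul ((S.Sub_const (Nat.cast_nonneg _)).mul (Sub_pow' (hKx.add (S.Sub_const zero_le_one)) t.D)))
  refine PLe_cell_typ B r (fun k => Setoid.ker (A.cellv r k)) _ hS ht ?_
  filter_upwards [t.fn, hc, hx, hKt.1, hKx.1, hKc.1] with k a1 a2 a3 a4 a5 a6 ω ω' hω hω' h1 h2 hz hcl i
  have e0 : t.p k ω = t.p k ω' := a1 ω ω' hω hω' hz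
  have hd : ∀ j, |A.v k ω j - A.v k ω' j| ≤ S.dl r k := fun j =>
    abs_sub_le_of_floor_eq (S.dl_pos r k) (congrFun hcl j)
  have hT : 1 ≤ Kx k + 1 := by linarith
  have h3 := eval_sub_le (P := t.p k ω i) hT (S.dl_pos r k).le (t.deg k ω i) (u := A.v k ω) (v := A.v k ω')
    (fun j _ => (a3 ω hω j).trans (by linarith)) (fun j _ => (a3 ω' hω' j).trans (by linarith)) (fun j _ => hd j)
  have h4 : |eval (A.v k ω) (t.p k ω i) - eval (A.v k ω') (t.p k ω i)| ≤
      Kc k * (t.D * (Kx k + 1) ^ t.D) * S.dl r k := by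
    refine h3.trans ((mul_le_mul_of_nonneg_right (a2 ω hω i) ?_).trans (le_of_eq (by ring)))
    have := (S.dl_pos r k).le
    positivity
  have h5 := h1 i
  have h6 := h2 i
  rw [← e0] at h6
  have h7 : Kt k * S.dl 1 k ≤ Kt k * S.dl r k := mul_le_mul_of_nonneg_left (S.dl_anti hr k) a4
  rw [abs_le] at h4 h5 h6 ⊢
  constructor <;> nlinarith

/-! ### slow joins -/

/-- a slow diagonal: if `P m` holds eventually for all `m`, then `P (m k) k` for a sequence `m` which tends to infinity -/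
theorem exists_slow_idx (P : ℕ → ℕ → Prop) (hP : ∀ m, ∀ᶠ k in UF, P m k) :
    ∃ m : ℕ → ℕ, (∀ᶠ k in UF, P (m k) k) ∧ ∀ M0, ∀ᶠ k in UF, M0 ≤ m k := by
  classical
  refine ⟨fun k => Nat.findGreatest (fun m => P m k) k, ?_, fun M0 => ?_⟩
  · filter_upwards [hP 0] with k h0
    exact Nat.findGreatest_spec (P := fun m => P m k) (Nat.zero_le k) h0
  · have h1 : ∀ᶠ k in UF, M0 ≤ k := UF_ge M0
    filter_upwards [hP M0, h1] with k h2 h3
    exact Nat.le_findGreatest h3 h2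

/-- the joins of the first `m` partitions -/
@[instance_reducible] def jnm {S : Sp} (Y : ℕ → Rsl S) : ℕ → Rsl S
  | 0 => fun _ => ⊤
  | m + 1 => fun k => jnm Y m k ⊓ Y m k

theorem jnm_le {Y : ℕ → Rsl S} (k : ℕ) : ∀ (m i : ℕ), i < m → jnm Y m k ≤ Y i k
  | 0, i, h => absurd h (Nat.not_lt_zero i)
  | m + 1, i, h => by
    rcases Nat.lt_succ_iff_lt_or_eq.mp h with h1 | h1
    · exact (inf_le_left : jnm Y m k ⊓ Y m k ≤ _).trans (jnm_le k m i h1)
    · rw [h1]
      exact (inf_le_right : jnm Y m k ⊓ Y m k ≤ _)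

/-- **SLOW JOIN** -/
theorem exists_slow_join {R C : Rsl S} (Y : ℕ → Rsl S) (hlit : ∀ i, ∀ᶠ k in UF, R k ⊓ (S.F k).Z ≤ Y i k)
    (hN : ∀ i, PLe (fun k => (fc (Y i k) : FL (S.F k))) (fun k => fc (C k))) :
    ∃ J : Rsl S, (∀ᶠ k in UF, R k ⊓ (S.F k).Z ≤ J k) ∧ (∀ i, ∀ᶠ k in UF, J k ≤ Y i k) ∧
      PLe (fun k => (fc (J k) : FL (S.F k))) (fun k => fc (C k)) := by
  have h1 : ∀ m, ∀ᶠ k in UF, R k ⊓ (S.F k).Z ≤ jnm Y m k := by
    intro m
    induction m with
    | zero => exact Eventually.of_forall fun k => le_top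
    | succ m ih =>
      filter_upwards [ih, hlit m] with k a b
      exact le_inf a b
  have h2 : ∀ m, PLe (fun k => (fc (jnm Y m k) : FL (S.F k))) (fun k => fc (C k)) := by
    intro m
    induction m with
    | zero =>
      refine (Nul_zero S).of_le (Eventually.of_forall fun _ => h_nonneg _ _) (Eventually.of_forall fun k => ?_)
      exact (h_zero (fc_mono (le_top : C k ≤ ⊤))).le
    | succ m ih =>
      refine (Nul.add ih (hN m)).of_le (Eventually.of_forall fun _ => h_nonneg _ _) (Eventually.of_forall fun k => ?_)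
      show h (fc (jnm Y m k ⊓ Y m k)) (fc (C k)) ≤ h (fc (jnm Y m k)) (fc (C k)) + h (fc (Y m k)) (fc (C k))
      rw [fc_inf]
      exact h_sup_le _ _ _
  have h3 : ∀ m : ℕ, ∀ᶠ k in UF, (R k ⊓ (S.F k).Z ≤ jnm Y m k) ∧
      h (fc (jnm Y m k)) (fc (C k)) / (S.F k).n ≤ 1 / ((m : ℝ) + 1) := by
    intro m
    have h4 : (0 : ℝ) < 1 / ((m : ℝ) + 1) := by positivity
    have h5 : Tendsto (fun k => h (fc (jnm Y m k)) (fc (C k)) / (S.F k).n) UF (𝓝 0) := h2 m
    filter_upwards [h1 m, h5.eventually (gt_mem_nhds h4)] with k a b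
    exact ⟨a, b.le⟩
  obtain ⟨m, hm1, hm2⟩ := exists_slow_idx _ h3
  refine ⟨fun k => jnm Y (m k) k, hm1.mono fun k h => h.1, fun i => ?_, ?_⟩
  · filter_upwards [hm2 (i + 1)] with k h
    exact jnm_le k (m k) i h
  · show Tendsto (fun k => h (fc (jnm Y (m k) k)) (fc (C k)) / (S.F k).n) UF (𝓝 0)
    rw [Metric.tendsto_nhds]
    intro ε hε
    obtain ⟨M0, hM0⟩ := exists_nat_one_div_lt hε
    filter_upwards [hm1, hm2 M0] with k a b
    have h6 : 0 ≤ h (fc (jnm Y (m k) k)) (fc (C k)) / (S.F k).n := div_nonneg (h_nonneg _ _) (S.F k).pos.le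
    rw [Real.dist_eq, sub_zero, abs_of_nonneg h6]
    refine (a.2.trans ?_).trans_lt hM0
    apply one_div_le_one_div_of_le (by positivity)
    have : (M0 : ℝ) ≤ m k := by exact_mod_cast b
    linarith

end

end Pool.Agent.Helper26.VSV
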