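import Pool.Agent.Helper26.VSV.Hx0
import Pool.Agent.Helper71.VIS.Hx1

/-! VISIBILITY OF THE ZOOM, the core on the space of the zoom: two systems with the same windows, a tame triangular map from
the point of the first to the point of the second; exact numbers of the second system, lower bounds of the numbers of the
first one, visible least carriers of the second: a literal K-label of the first one with a frame, known to the cells. -/

set_option autoImplicit false

namespace Pool.Agent.Helper26.VSV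

open Finset Filter Topology Matrix Pool.Agent.Helper69.RK Pool.Agent.Helper31.EC Pool.Agent.Helper31.EC.Sp
open Pool.Agent.Helper40.EL Pool.Agent.Helper89.LX Pool.Agent.Helper3.LF Pool.Agent.Helper84.MT
open Pool.Agent.Helper95.LF Pool.Agent.Helper36.AM
open Pool.Agent.Helper7.RD (PLe_pR)
open Pool.Agent.Helper87.NSL (cndR KnS)
open Pool.Agent.Helper89.RAK (rnd rnd_close)
open Pool.Agent.Helper48.ROK (NumS frames_num mc_of_frm)
open Pool.Agent.Helper52.MW (AllE_self)
open Pool.Agent.Helper71.VIS (Cso cso_cell low_rdtrn untrn trn_klb)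
open Pool.Agent.Helper5.TRY (frm_iff_z deg_ex)
open Pool.Agent.Helper29.MX
open Pool.Agent.Helper29.HX (NumA Vis)

noncomputable section

variable {S : Sp} {N g g2 r : ℕ}

/-- a literal K-label of a system is a K-label of a system with the same windows, for any resolution which knows it -/
theorem klb_w {M1 M2 : ℕ} {E1 E2 : ℕ → ℕ} {ι : Type} {t1 : MSys S M1 E1 ι} {t2 : MSys S M2 E2 ι} {q : ℝ}
    (hwin : ∀ i, PLe ((t1.lf i).win q) ((t2.lf i).win q)) {R R2 Y : Rsl S}
    (hY : KLb t1 R q (Lab.ofZ Y)) (hR : ∀ᶠ k in UF, R2 k ≤ Y k) : KLb t2 R2 q (Lab.ofZ Y) := by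
  have h3 := (Lab.ofZ_DMf Y).mp hY.1
  refine ⟨(Lab.ofZ_DMf Y).mpr fun i => ?_, ?_⟩
  · rcases i with _ | i
    · exact PLe_pR hR
    · have h4 : PLe (fun k => fc (Y k)) ((t1.lf i).win q) := h3 (some i)
      exact PLe.trans h4 (hwin i)
  · exact Pool.Agent.Helper49.KL.kz_ofZ (hR.mono fun k hk => inf_le_left.trans hk)

/-- least carriers from exact numbers -/
theorem exists_car {t : MSys S N (lin g) (Fin r)} {R : Rsl S} (hst : ∀ m, m < N → STu m) (hP : Pt t R) {w : Fin N → ℝ}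
    (hw : ∀ i, 1 ≤ w i) {q : ℝ} (hq : 0 < q) (hwq : ∀ i, w i * q < 1) (hq1 : q < 1)
    (hN : ∀ c' : ℝ, 0 < c' → c' ≤ q → AllE (fun _ t' R' => NumA w c' t' R') S t R) : ∃ Y, Mc t R w q Y := by
  obtain ⟨Z, f, z1, z2, -⟩ := frames_num hst hP hw hq hwq hq1 (fun c' a b => AllE_self (hN c' a b)) hN
  exact mc_of_frm hP hq hw hwq (num_tot (AllE_self (hN q hq le_rfl))) z2 f

/-- **THE CORE** -/
theorem zcore {t : MSys S N (lin g) (Fin r)} {zs : MSys S N (lin g2) (Fin r)} {R1 : Rsl S}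
    {w : Fin N → ℝ} {b e : ℝ} (hst : ∀ m, m < N → STu m) (hPt : Pt t R1) (hPz : Pt zs R1) (hw : ∀ i, 1 ≤ w i)
    (hb : 0 < b) (he : 0 < e) (he1 : e ≤ 1) (hbe : b < e) (hwbe : ∀ i, w i * b < e) (τ : TM t.Q zs.Q)
    (hwin : ∀ q : ℝ, 0 ≤ q → ∀ i, PLe ((zs.lf i).win q) ((t.lf i).win q))
    (hlow : ∀ q : ℝ, 0 ≤ q → q ≤ b → AllE (fun _ t' R' => ∀ (j : ℕ) (hj : j ≤ N),
      (j : ℝ) - wsm w j * q ≤ volP t' R' q hj) S t R1)
    (hnz : ∀ q : ℝ, 0 ≤ q → q ≤ b → AllE (fun _ t' R' => NumA w q t' R') S zs R1)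
    (hvis : ∀ q : ℝ, 0 < q → q ≤ b → Vis w zs R1 q e) :
    ∃ Z' : Rsl S, Nonempty (Frm t.Q (Lab.ofZ Z') fun j => w j * b) ∧ KLb t R1 b (Lab.ofZ Z') ∧
      PLe (fun k => (fc (Z' k) : FL (S.F k))) (fun k => fc (Setoid.ker (t.Q.cellv e k))) := by
  have hwq : ∀ q : ℝ, q ≤ b → ∀ i, w i * q < e := fun q h i =>
    (mul_le_mul_of_nonneg_left h (zero_le_one.trans (hw i))).trans_lt (hwbe i)
  obtain ⟨qq, hqq, hden⟩ := exists_win hb
  have hcar : ∀ i, ∃ Y : Rsl S, Mc zs R1 w (qq i) Y := fun i =>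
    exists_car hst hPz hw (hqq i).1 (fun j => (hwq _ (hqq i).2 j).trans_le he1)
      ((hqq i).2.trans_lt (hbe.trans_le he1)) fun c' h1 h2 => hnz c' h1.le (h2.trans (hqq i).2)
  choose Y hY using hcar
  have hcell : PLe (fun k => (fc (Setoid.ker (zs.Q.cellv e k)) : FL (S.F k)))
    (fun k => fc (Setoid.ker (t.Q.cellv e k))) := τ.cell he1
  have hYc : ∀ i, PLe (fun k => (fc (Y i k) : FL (S.F k))) (fun k => fc (Setoid.ker (t.Q.cellv e k))) := fun i =>
    PLe.trans (hvis (qq i) (hqq i).1 (hqq i).2 (Y i) (hY i)) hcell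
  obtain ⟨J, hJ1, hJ2, hJ3⟩ := exists_slow_join (R := R1) (C := fun k => Setoid.ker (t.Q.cellv e k)) Y
    (fun i => (hY i).lit) hYc
  obtain ⟨R2, hR2⟩ : ∃ R2 : Rsl S, ∀ k, R2 k = Setoid.ker (t.Q.cellv e k) ⊓ J k := ⟨_, fun _ => rfl⟩
  have hR2c : ∀ k, R2 k ≤ Setoid.ker (t.Q.cellv e k) := fun k => (hR2 k).trans_le inf_le_left
  have hR2J : ∀ k, R2 k ≤ J k := fun k => (hR2 k).trans_le inf_le_right
  have hcso : Cso S R1 R2 := by
    filter_upwards [cso_cell hPt e, hJ1] with k h1 h2 ω ω' a a' z r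
    rw [hR2 k]
    exact ⟨h1 ω ω' a a' z r, h2 ⟨r, z⟩⟩
  have hPt' : Pt (S := S.chg S.tr e he) (rd (t.trn e he he1)) R2 := pt_rdtrn he he1 (Eventually.of_forall hR2c)
  have hN : ∀ q : ℝ, 0 < q → q ≤ b / e → AllE (fun _ t' R' => NumS q w t' R') (S.chg S.tr e he)
      (rd (t.trn e he he1)) R2 := by
    refine num_all (S := S.chg S.tr e he) (t := rd (t.trn e he he1)) (R2 := R2) hw ?_ ?_
    · intro q h1 h2
      refine low_rdtrn he he1 hcso hlow q h1.le ?_
      rwa [le_div_iff₀ he, mul_comm] at h2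
    · intro q h1 h2 δ hδ
      have h3 : e * q ≤ b := by rwa [le_div_iff₀ he, mul_comm] at h2
      obtain ⟨i, hi1, hi2⟩ := hden (max 0 (e * (q - δ))) (e * q) (le_max_left _ _)
        (max_lt (mul_pos he h1) (mul_lt_mul_of_pos_left (by linarith) he)) h3
      have hi3 := (le_max_right 0 (e * (q - δ))).trans_lt hi1
      refine ⟨qq i / e, ?_, ?_, ?_⟩
      · rw [lt_div_iff₀ he]
        linarith
      · rw [div_le_iff₀ he]
        linarith
      · have hYi := hY i
        have hq0 : 0 ≤ qq i / e := div_nonneg (hqq i).1.le he.le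
        have e1 : e * (qq i / e) = qq i := mul_div_cancel₀ _ he.ne'
        have hwq1 : ∀ j, w j * (qq i / e) < 1 := fun j => by
          rw [← mul_div_assoc, div_lt_one he]
          exact hwq _ (hqq i).2 j
        have hKt : KLb t R2 (qq i) (Lab.ofZ (Y i)) := klb_w (hwin _ (hqq i).1.le) hYi.kl
          ((hJ2 i).mono fun k hk => (hR2J k).trans hk)
        have hfr : Nonempty (Frm (zs.Q.chg S.tr e he) (Lab.ofZ (S := S.chg S.tr e he) (Y i))
            fun j => w j * (qq i / e)) :=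
          (frm_iff_z (Q := zs.Q) (X := Y i) (h0 := he) he1 hw hq0 fun j => (hwq1 j).le).mpr (by rw [e1]; exact hYi.fr)
        obtain ⟨gf⟩ := hfr
        obtain ⟨d, hd⟩ := deg_ex gf hq0 hw
        have τ' : TM (S := S.chg S.tr e he) (rd (t.trn e he he1)).Q (zs.Q.chg S.tr e he) :=
          (τ.chg he he1).near ⟨fun _ => 1, (S.chg S.tr e he).Sub_const zero_le_one, Eventually.of_forall fun k ω _ j => by
            rw [one_mul]
            exact rnd_close (S := S.chg S.tr e he) (t.Q.chg S.tr e he) k ω j⟩ ⟨fun _ => 0,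
              (S.chg S.tr e he).Sub_const le_rfl, Eventually.of_forall fun k ω _ j => by
                rw [sub_self, abs_zero, zero_mul]⟩
        exact up_all (S := S.chg S.tr e he) τ' hw hq0 hwq1 (trn_klb he he1 hKt) gf hd
  obtain ⟨Z', f', z1, z2, -⟩ := frames_num (S := S.chg S.tr e he) (s := rd (t.trn e he he1)) (R := R2) hst hPt' hw
    (div_pos hb he) (fun i => by
      rw [← mul_div_assoc, div_lt_one he]
      exact hwbe i) ((div_lt_one he).2 hbe) (fun c' a b => AllE_self (hN c' a b)) hN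
  obtain ⟨u1, u2⟩ := untrn he he1 hw hb.le (fun j => (hwbe j).le) f' z2
  refine ⟨Z', u1, hcso.klb u2, ?_⟩
  refine Nul.of_le hJ3 (Eventually.of_forall fun _ => h_nonneg _ _) ?_
  filter_upwards [z1] with k hk
  have h1 : (fc (Z' k) : FL (S.F k)) ≤ fc (Setoid.ker (t.Q.cellv e k) ⊓ J k) := by
    refine fc_le fun ω ω' _ _ z r => ?_
    rw [← hR2 k] at r
    exact hk ⟨r, trivial, z⟩
  rw [fc_inf] at h1
  refine (h_mono h1).trans ((h_sup_le _ _ _).trans ?_)
  rw [h_self, zero_add]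

end

end Pool.Agent.Helper26.VSV
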