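import Pool.Agent.Helper26.VSV.Tzf
import Pool.Agent.Helper26.VSV.Zc
import Pool.Agent.Helper18.MCU.Dvx
import Pool.Agent.Helper18.TRF.Cmp

/-! THE ROW `HERX`: visibility of the zoom gives visibility relative to a least carrier and the cells of a frame over it. -/

set_option autoImplicit false

namespace Pool.Agent.Helper26.VSV

open Finset Filter Topology Matrix MvPolynomial Pool.Agent.Helper69.RK Pool.Agent.Helper31.EC
open Pool.Agent.Helper31.EC.Sp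
open Pool.Agent.Helper40.EL Pool.Agent.Helper89.LX Pool.Agent.Helper3.LF Pool.Agent.Helper84.MT
open Pool.Agent.Helper95.LF Pool.Agent.Helper36.AM Pool.Agent.Helper7.GZ
open Pool.Agent.Helper7.RD (PZ FD0 RW WZ pR roz KLb_cl KLb_mono clz)
open Pool.Agent.Helper87.NSL (cndR KnS)
open Pool.Agent.Helper52.MW (AllE_self)
open Pool.Agent.Helper18.TRF (Ful cmf)
open Pool.Agent.Helper18.MCU (clF vsx_at)
open Pool.Agent.Helper5.TRY (deg_ex)
open Pool.Agent.Helper29.MX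
open Pool.Agent.Helper29.HX (NumA Vis VsA HERX)

noncomputable section

variable {S : Sp} {N : ℕ} {ι : Type}

/-- the zoom in the coordinates of a frame over the label of a deep zoom -/
theorem exists_zoom {g : ℕ} {s : MSys S N (lin g) ι} (z : RW s N) {La : Fin N → ℝ} (f : Frm s.Q z.Z.l La)
    (h0 : ∀ j, 0 ≤ La j) (hu : ∀ j, La j + z.Z.u ≤ 1) {d : ℕ} (hd : ∀ k ω j, (f.P k ω j).totalDegree ≤ d) :
    ∃ (g' : ℕ) (t : MSys z.Z.sp N (lin g') ι), t.Q = zfx z f h0 hu hd ∧ ∀ b : ℝ, 0 ≤ b → WZ z.Z s t b := by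
  obtain ⟨t, -, h1, -, h2⟩ := Pool.Agent.Helper7.RD.exists_gzfE (zfd z f h0 hu hd) z.dm
    (E' := lin (g * (d + 1) ^ N)) (Pool.Agent.Helper7.RD.lin_mul g ((d + 1) ^ N) (Nat.one_le_pow _ _ (Nat.succ_pos _)))
  exact ⟨_, t, h1, h2⟩

/-- lower bounds of the numbers of the zoom in the coordinates of the frame -/
theorem zf_low [Finite ι] {g g' : ℕ} {s : MSys S N (lin g) ι} {R : Rsl S} {z : RW s N} {w : Fin N → ℝ} {V : Rsl S}
    (hV : z.Z.l = Lab.ofZ V) (hK : KLb s R z.Z.c z.Z.l) {f : Frm s.Q z.Z.l fun j => w j * z.Z.c}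
    {h0 : ∀ j, 0 ≤ w j * z.Z.c} {hu : ∀ j, w j * z.Z.c + z.Z.u ≤ 1} {d : ℕ}
    {hd : ∀ k ω j, (f.P k ω j).totalDegree ≤ d} {t : MSys z.Z.sp N (lin g') ι} (htQ : t.Q = zfx z f h0 hu hd) {q : ℝ}
    (hwz : WZ z.Z s t q) (h1 : AllE (fun _ t R' => NumA w (z.Z.c + z.Z.u * q) t R') S s R) :
    AllE (fun _ t' R' => ∀ (j : ℕ) (hj : j ≤ N), (j : ℝ) - wsm w j * q ≤ volP t' R' q hj) z.Z.sp t (roz z.Z R) := by
  refine low_all (Z := z.Z) (z := (zfd z f h0 hu hd).pz (zfd z f h0 hu hd).XV (zfd z f h0 hu hd).isX_XV)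
    ((zfd z f h0 hu hd).tri (zfd z f h0 hu hd).XV (zfd z f h0 hu hd).isX_XV) hV hK htQ hwz (fun η hη => ?_) h1
  refine (Typ_true (S := z.Z.l.sp)).mono (Eventually.of_forall fun k ω _ _ j => ?_)
  have h3 : eval (s.Q.v k ((z.Z.l k).p.π ω)) (pderiv j (((zfd z f h0 hu hd).pz (zfd z f h0 hu hd).XV
      (zfd z f h0 hu hd).isX_XV).R.p k ω j)) = 2 ^ (w j * z.Z.c * (S.F k).n) :=
    (zfd z f h0 hu hd).pd (zfd z f h0 hu hd).XV (zfd z f h0 hu hd).isX_XV k ω _ j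
  rw [h3, abs_of_pos (by positivity)]
  apply Real.rpow_le_rpow_of_exponent_le (by norm_num)
  have h4 := (S.F k).pos
  nlinarith

/-- **VISIBILITY OVER THE LABEL OF THE ZOOM** -/
theorem core {g r : ℕ} {s : MSys S N (lin g) (Fin r)} {R : Rsl S} {w : Fin N → ℝ} {b e : ℝ}
    (hst : ∀ m, m < N → STu m) (hP : Pt s R) (hw : ∀ i, 1 ≤ w i) (hb : 0 < b) (he : 0 < e) (he1 : e ≤ 1) (hbe : b < e)
    (hwbe : ∀ i, w i * b < e) (z : RW s N) (hcu : ∀ i, w i * z.Z.c + z.Z.u ≤ 1)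
    (hnum : ∀ c' : ℝ, 0 ≤ c' → c' ≤ z.Z.c + z.Z.u * b → AllE (fun _ t R' => NumA w c' t R') S s R) {V : Rsl S}
    (hV : z.Z.l = Lab.ofZ V) (hK : KLb s R z.Z.c z.Z.l) (hf : Flg z (fun j => w j * z.Z.c))
    (hPz : Pt z.sys (rover z.Z.l z.Z.u z.Z.hu R))
    (hnz : ∀ b' : ℝ, 0 ≤ b' → b' ≤ b →
      AllE (fun _ t R' => NumA w b' t R') z.Z.sp z.sys (rover z.Z.l z.Z.u z.Z.hu R))
    (hvis : ∀ b' : ℝ, 0 < b' → b' ≤ b → Vis w z.sys (rover z.Z.l z.Z.u z.Z.hu R) b' e)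
    {X2 : Rsl S} (hX2 : Mc s R w (z.Z.c + z.Z.u * b) X2) (f : Frm s.Q z.Z.l fun j => w j * z.Z.c) :
    Nul S fun k => h ((z.Z.l k).p.map (fc (X2 k)))
      ((z.Z.l k).v ⊔ fc (Setoid.ker (f.X.cellv (z.Z.u * e) k))) := by
  have hc0 : 0 ≤ z.Z.c := z.Z.h0
  have hu0 : 0 < z.Z.u := z.Z.hu
  have h0 : ∀ j, 0 ≤ w j * z.Z.c := fun j => mul_nonneg (zero_le_one.trans (hw j)) hc0
  obtain ⟨d, hd⟩ := deg_ex f hc0 hw
  obtain ⟨g', t, htQ, htw⟩ := exists_zoom z f h0 hcu hd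
  have hful : Ful (S := z.Z.sp) (zfx z f h0 hcu hd) := by
    refine zfd_ful hP (zfd z f h0 hcu hd) hK ?_
    have h1 := num_tot (AllE_self (hnum z.Z.c hc0 (by nlinarith)))
    rw [← Finset.sum_mul]
    exact h1.ge
  obtain ⟨τ⟩ := exists_tzf z f h0 hcu hd hf hful
  have τt : TM (S := z.Z.sp) t.Q z.sys.Q := by
    rw [htQ]
    exact τ
  have hPt : Pt t (roz z.Z R) := by
    show KnS (S := z.Z.sp) (roz z.Z R) t.Q.v
    rw [htQ]
    exact (zfd z f h0 hcu hd).XV_lit hP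
  have hlow : ∀ q : ℝ, 0 ≤ q → q ≤ b → AllE (fun _ t' R' => ∀ (j : ℕ) (hj : j ≤ N),
      (j : ℝ) - wsm w j * q ≤ volP t' R' q hj) z.Z.sp t (roz z.Z R) := fun q h1 h2 =>
    zf_low hV hK htQ (htw q h1) (hnum _ (add_nonneg hc0 (mul_nonneg hu0.le h1)) (by nlinarith))
  obtain ⟨Z', ⟨f'⟩, hKz, hPl⟩ := zcore (S := z.Z.sp) (t := t) (zs := z.sys) (R1 := roz z.Z R) hst hPt hPz hw hb he he1
    hbe hwbe τt (fun q h1 i => PLe.trans (S := z.Z.sp) ((z.wz h1).le i) ((htw q h1).ge i)) hlow hnz hvis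
  obtain ⟨d', hd'⟩ := deg_ex f' hb.le hw
  have hKc : KLb s R (z.Z.c + z.Z.u * b) (clz z.Z (Lab.ofZ Z')) := KLb_cl (htw b hb.le) hK hKz
  have hy : ∃ K : ℕ → ℝ, S.Sub K ∧ ∀ᶠ k in UF, ∀ ω : (z.Z.l.sp.F k).Ω, (z.Z.l.sp.F k).μ ω ≠ 0 → ∀ j,
      |t.Q.v k ω j - f.X.v k ω j| ≤ K k * S.dl z.Z.u k := by
    obtain ⟨K, hK1, h1⟩ := (zfd z f h0 hcu hd).near
    refine ⟨K, hK1, ?_⟩
    filter_upwards [h1] with k hk ω hω j
    rw [htQ]
    exact hk ω hω j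
  have hfr : Nonempty (Frm s.Q (clz z.Z (Lab.ofZ Z')) fun j => w j * (z.Z.c + z.Z.u * b)) :=
    ⟨cmf (l := z.Z.l) (e := z.Z.u) (he := z.Z.hu) (y := t.Q) (l' := Lab.ofZ Z') f f' hc0 hb.le
      (fun j => one_pos.trans_le (hw j)) (fun j => (hwbe j).le.trans he1) hd hd' hy⟩
  have hmin := hX2.min _ hKc hfr
  refine fin_chain hV z.Z.hu hmin (PLe.trans (S := z.Z.sp) hPl ?_)
  have h5 : PLe (S := z.Z.sp) (fun k => fc (Setoid.ker ((zfx z f h0 hcu hd).cellv e k))) fun k =>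
      fc (Setoid.ker (f.X.cellv (z.Z.u * e) k)) := cel_near (zfd z f h0 hcu hd) he1
  rw [htQ]
  exact h5

/-- the trivial cases -/
theorem vis_triv {g r : ℕ} {s : MSys S N (lin g) (Fin r)} {R : Rsl S} {w : Fin N → ℝ} {c c' : ℝ} (hcc : c ≤ c')
    (hLa : ∀ j, w j * c = w j * c') {X1 X2 : Rsl S} (hX1 : Mc s R w c X1) (hX2 : Mc s R w c' X2)
    {C : ∀ k, FL (Lab.ofZ X1 k).T} :
    Nul S fun k => h ((Lab.ofZ X1 k).p.map (fc (X2 k))) ((Lab.ofZ X1 k).v ⊔ C k) := by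
  have e1 : (fun j => w j * c) = fun j => w j * c' := funext hLa
  have hfr : Nonempty (Frm s.Q (Lab.ofZ X1) fun j => w j * c') := by
    rw [← e1]
    exact hX1.fr
  have hK : KLb s R c' (Lab.ofZ X1) := KLb_mono (Eventually.of_forall fun _ => le_rfl) hcc hX1.kl
  exact (hX2.min _ hK hfr).of_le (Eventually.of_forall fun _ => h_nonneg _ _)
    (Eventually.of_forall fun k => h_anti le_sup_left)

/-- **THE ROW `HERX`** -/
theorem herx (N : ℕ) : Pool.Agent.Helper29.HX.HERX N := by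
  intro hst S g r s R w c u b e hP hw hc hu hb he1 hwbe hcu hnum X V hX hVX hVN z hl hzc hzu hK hf hPz hnz hvis X1 X2
    hX1 hX2 f1
  subst hzc
  subst hzu
  rcases Nat.eq_zero_or_pos N with hN0 | hN0
  · subst hN0
    exact vis_triv (by nlinarith) (fun j => j.elim0) hX1 hX2
  rcases hb.eq_or_lt with hb0 | hb0
  · subst hb0
    exact vis_triv (by rw [mul_zero, add_zero]) (fun j => by rw [mul_zero, add_zero]) hX1 hX2
  have i0 : Fin N := ⟨0, hN0⟩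
  have hbe : b < e := by
    have h1 := hw i0
    have h2 := hwbe i0
    nlinarith
  have he : 0 < e := hb0.trans hbe
  obtain ⟨f0⟩ := hX.fr
  have h1 := fin_lit hl (fun f => core hst hP hw hb0 he he1 hbe hwbe z hcu hnum hl hK hf hPz hnz hvis hX2 f) (frv f0 hVX)
  have h2 : Nul S fun k => Pool.Agent.Helper31.EC.h (fc (X2 k) : FL (S.F k)) (fc (V k) ⊔ clF f0 (z.Z.u * e) k) := h1
  have h3 : Nul S fun k => Pool.Agent.Helper31.EC.h (fc (X2 k) : FL (S.F k)) (fc (X k) ⊔ clF f0 (z.Z.u * e) k) := by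
    refine (h2.add hVN).of_le (Eventually.of_forall fun _ => h_nonneg _ _) (Eventually.of_forall fun k => ?_)
    have a1 := h_triangle (fc (X2 k) : FL (S.F k)) (fc (V k)) (fc (X k) ⊔ clF f0 (z.Z.u * e) k)
    have a2 : Pool.Agent.Helper31.EC.h (fc (X2 k) : FL (S.F k)) (fc (V k) ⊔ (fc (X k) ⊔ clF f0 (z.Z.u * e) k)) ≤
        Pool.Agent.Helper31.EC.h (fc (X2 k)) (fc (V k) ⊔ clF f0 (z.Z.u * e) k) :=
      h_anti (sup_le le_sup_left (le_sup_right.trans le_sup_right))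
    have a3 : Pool.Agent.Helper31.EC.h (fc (V k) : FL (S.F k)) (fc (X k) ⊔ clF f0 (z.Z.u * e) k) ≤
        Pool.Agent.Helper31.EC.h (fc (V k)) (fc (X k)) := h_anti le_sup_left
    linarith
  have hT : volKO s R z.Z.c = N - (∑ i, w i) * z.Z.c := num_tot (AllE_self (hnum z.Z.c hc.le (by nlinarith)))
  have hwe : ∀ j, w j * z.Z.c + z.Z.u * e ≤ 1 := fun j => by
    have a1 := hcu j
    nlinarith
  exact vsx_at i0 hP hw hc.le hT hX hX1 f0 f1 (mul_pos hu he) hwe (Y := fun k => fc (X2 k)) (Y' := fun k => fc (X2 k))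
    (PLe.refl _) h3

end

end Pool.Agent.Helper26.VSV
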