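import Pool.Agent.Helper26.VSV.Up
import Pool.Agent.Helper48.ROK.Cars
import Pool.Agent.Helper7.RD.Br

/-! VISIBILITY OF THE ZOOM, preparations: change of the label of a frame, literal labels of two zooms over one label, the
chain rule over a literal label, exact coordinates and their cells, rounded truncations, a dense sequence of windows. -/

set_option autoImplicit false

namespace Pool.Agent.Helper26.VSV

open Finset Filter Topology Matrix Pool.Agent.Helper69.RK Pool.Agent.Helper31.EC Pool.Agent.Helper31.EC.Sp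
open Pool.Agent.Helper40.EL Pool.Agent.Helper89.LX Pool.Agent.Helper3.LF Pool.Agent.Helper84.MT
open Pool.Agent.Helper95.LF Pool.Agent.Helper36.AM Pool.Agent.Helper7.GZ
open Pool.Agent.Helper7.RD (FD0 RW pR roz PLe_pR)
open Pool.Agent.Helper87.NSL (cndR KnS)
open Pool.Agent.Helper48.ROK (NumS)
open Pool.Agent.Helper71.VIS (Cso)
open Pool.Agent.Helper29.MX
open Pool.Agent.Helper29.HX (NumA)

noncomputable section

variable {S T : Sp} {M M' : ℕ} {E E' : ℕ → ℕ} {ι : Type}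

/-- frames over a finer literal label -/
def frv {Q : S.VV M} {X V : Rsl S} {La : Fin M → ℝ} (f : Frm Q (Lab.ofZ X) La) (hV : ∀ᶠ k in UF, V k ≤ X k) :
    Frm Q (Lab.ofZ V) La where
  X := f.X
  P := f.P
  tri := f.tri
  red := f.red
  fn := by
    filter_upwards [f.fn, hV] with k h1 h2 ω ω' a b c d
    exact h1 ω ω' a b c (h2 d)
  bd := f.bd
  pt := f.pt

/-- a literal K-label of one zoom is a K-label of the other zoom, for any resolution which knows it -/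
theorem klb_t {Z : ZU S} {s : MSys S M E ι} {t1 : MSys Z.sp M' E' ι} {E2 : ℕ → ℕ} {M2 : ℕ} {t2 : MSys Z.sp M2 E2 ι} {q : ℝ}
    (h1 : Pool.Agent.Helper7.RD.WZ Z s t1 q) (h2 : Pool.Agent.Helper7.RD.WZ Z s t2 q) {R R2 Y : Rsl Z.sp}
    (hY : KLb t1 R q (Lab.ofZ Y)) (hR : ∀ᶠ k in UF, R2 k ≤ Y k) : KLb t2 R2 q (Lab.ofZ Y) := by
  have h3 := (Lab.ofZ_DMf Y).mp hY.1
  refine ⟨(Lab.ofZ_DMf Y).mpr fun i => ?_, ?_⟩
  · rcases i with _ | i
    · exact PLe_pR hR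
    · have h4 : PLe (fun k => fc (Y k)) ((t1.lf i).win q) := h3 (some i)
      exact PLe.trans (S := Z.sp) h4 (PLe.trans (S := Z.sp) (h1.le i) (h2.ge i))
  · exact Pool.Agent.Helper49.KL.kz_ofZ (hR.mono fun k hk => inf_le_left.trans hk)

/-- conditional entropies in the space over the label -/
theorem h_ovr' (l : Lab S) (e : ℝ) (he : 0 < e) (k : ℕ) (A B : Setoid (l k).T.Ω) :
    h (fc A : FL ((l.ovr e he).F k)) (fc B) = h (fc A : FL (l k).T) ((l k).v ⊔ fc B) := by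
  rw [sup_comm]
  exact (frb (l k).T (l k).V e he).h_map (fc A) (fc B)

theorem chain_lit {X2 V Z C : Rsl S} (h3 : Nul S fun k => h (fc (X2 k) : FL (S.F k)) (fc (V k ⊓ Z k)))
    (h4 : Nul S fun k => h (fc (Z k) : FL (S.F k)) (fc (V k) ⊔ fc (C k))) :
    Nul S fun k => h (fc (X2 k) : FL (S.F k)) (fc (V k) ⊔ fc (C k)) := by
  refine (h3.add h4).of_le (Eventually.of_forall fun _ => h_nonneg _ _) (Eventually.of_forall fun k => ?_)
  have h5 := h_triangle (fc (X2 k) : FL (S.F k)) (fc (Z k)) (fc (V k) ⊔ fc (C k))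
  have h6 : h (fc (X2 k) : FL (S.F k)) (fc (Z k) ⊔ (fc (V k) ⊔ fc (C k))) ≤ h (fc (X2 k)) (fc (V k ⊓ Z k)) := by
    refine h_anti ?_
    rw [fc_inf]
    exact sup_le (le_sup_left.trans le_sup_right) le_sup_left
  linarith

/-- **THE CHAIN RULE over a literal label** -/
theorem fin_chain {V : Rsl S} {l : Lab S} (hl : l = Lab.ofZ V) {u : ℝ} (hu : 0 < u) {Z' : Rsl (l.ovr u hu)} {X2 : Rsl S}
    {C : ∀ k, Setoid (l k).T.Ω}
    (h1 : Nul S fun k => h (((l.comp u hu (Lab.ofZ Z')) k).p.map (fc (X2 k))) ((l.comp u hu (Lab.ofZ Z')) k).v)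
    (h2 : PLe (S := l.ovr u hu) (fun k => fc (Z' k)) (fun k => fc (C k))) :
    Nul S fun k => h ((l k).p.map (fc (X2 k))) ((l k).v ⊔ fc (C k)) := by
  subst hl
  exact chain_lit (X2 := X2) (V := V) (Z := Z') (C := C) h1 (((Lab.nul_over (Lab.ofZ V) u hu).mp h2).congr fun k =>
    congrArg (fun x => x / (S.F k).n) (h_ovr' (Lab.ofZ V) u hu k (Z' k) (C k)))

/-- a literal label -/
theorem fin_lit {Q : S.VV M} {La : Fin M → ℝ} {V : Rsl S} {l : Lab S} (hl : l = Lab.ofZ V) {X2 : Rsl S} {r : ℝ}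
    (h1 : ∀ f : Frm Q l La, Nul S fun k => h ((l k).p.map (fc (X2 k))) ((l k).v ⊔ fc (Setoid.ker (f.X.cellv r k))))
    (f : Frm Q (Lab.ofZ V) La) : Nul S fun k => h ((Lab.ofZ V k).p.map (fc (X2 k)))
      ((Lab.ofZ V k).v ⊔ fc (Setoid.ker (f.X.cellv r k))) := by
  subst hl
  exact h1 f

/-- the cells of the exact coordinates of a frame -/
theorem cel_near {Q : S.VV M} {l : Lab S} {La : Fin M → ℝ} (F : FD0 Q l La) {e : ℝ} (he1 : e ≤ 1) :
    PLe (S := F.zu.sp) (fun k => fc (Setoid.ker (F.XV.cellv e k)))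
      (fun k => fc (Setoid.ker (F.f.X.cellv (F.e * e) k) : Setoid (l k).T.Ω)) := by
  obtain ⟨K, hK, h1⟩ := F.near
  refine PLe_cell (S := F.zu.sp) F.XV e (fun k => (Setoid.ker (F.f.X.cellv (F.e * e) k) : Setoid (l k).T.Ω))
    (fun k => 1 + (K k + K k)) (F.zu.Sub_sp.1 ((S.Sub_const zero_le_one).add (hK.add hK))) ?_
  filter_upwards [h1, hK.1] with k hk hK0
  intro (ω : (l k).T.Ω) (ω' : (l k).T.Ω) a b _ hc j
  have h2 : |F.XV.v k ω j - F.f.X.v k ω j| ≤ K k * S.dl F.e k := hk ω a j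
  have h3 : |F.XV.v k ω' j - F.f.X.v k ω' j| ≤ K k * S.dl F.e k := hk ω' b j
  have e1 : F.zu.sp.dl e k = S.dl (F.e * e) k := F.zu.sp_dl' e k
  have h4 : |F.f.X.v k ω j - F.f.X.v k ω' j| ≤ S.dl (F.e * e) k := by
    rw [← sp_dl (l := l)]
    exact abs_sub_le_of_floor_eq (l.sp.dl_pos (F.e * e) k) (congrFun hc j)
  have h5 : S.dl F.e k ≤ S.dl (F.e * e) k := S.dl_anti (mul_le_of_le_one_right F.he.le he1) k
  have h6 := mul_le_mul_of_nonneg_left h5 hK0
  rw [e1]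
  rw [abs_le] at h2 h3 h4 ⊢
  constructor <;> linarith

/-- cells of level `e` resolve the rounded truncation -/
theorem pt_rdtrn {s : MSys S M E ι} {e : ℝ} (he : 0 < e) (h1 : e ≤ 1) {R2 : Rsl S}
    (h : ∀ᶠ k in UF, R2 k ≤ Setoid.ker (s.Q.cellv e k)) : Pt (S := S.chg S.tr e he) (rd (s.trn e he h1)) R2 := by
  show KnS (S := S.chg S.tr e he) R2 (Pool.Agent.Helper89.RAK.rnd (s.trn e he h1).Q).v
  filter_upwards [h] with k hk ω ω' a b z r
  have h2 : s.Q.cellv e k ω = s.Q.cellv e k ω' := hk r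
  funext i
  show (⌊s.Q.v k ω i / (S.chg S.tr e he).dl 1 k⌋ : ℝ) * (S.chg S.tr e he).dl 1 k =
    ⌊s.Q.v k ω' i / (S.chg S.tr e he).dl 1 k⌋ * (S.chg S.tr e he).dl 1 k
  have h3 : (S.chg S.tr e he).dl 1 k = S.dl e k := by rw [chg_dl, mul_one]
  rw [h3]
  have h4 : ⌊s.Q.v k ω i / S.dl e k⌋ = ⌊s.Q.v k ω' i / S.dl e k⌋ := congrFun h2 i
  rw [h4]

/-- a dense sequence of windows -/
theorem exists_win {b : ℝ} (hb : 0 < b) : ∃ qq : ℕ → ℝ, (∀ i, 0 < qq i ∧ qq i ≤ b) ∧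
    ∀ x y : ℝ, 0 ≤ x → x < y → y ≤ b → ∃ i, x < qq i ∧ qq i < y := by
  classical
  obtain ⟨en, hen⟩ := exists_surjective_nat ℚ
  refine ⟨fun i => if 0 < (en i : ℝ) ∧ (en i : ℝ) ≤ b then (en i : ℝ) else b, fun i => ?_, fun x y h0 h1 h2 => ?_⟩
  · beta_reduce
    split_ifs with h
    · exact h
    · exact ⟨hb, le_rfl⟩
  · obtain ⟨r, hr1, hr2⟩ := exists_rat_btwn h1
    obtain ⟨i, hi⟩ := hen r
    refine ⟨i, ?_⟩
    beta_reduce
    rw [hi, if_pos ⟨h0.trans_lt hr1, (hr2.trans_le h2).le⟩]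
    exact ⟨hr1, hr2⟩

/-- the total number -/
theorem num_tot {w : Fin M → ℝ} {c : ℝ} {s : MSys S M E ι} {R : Rsl S} (h : NumA w c s R) :
    volKO s R c = M - (∑ i, w i) * c := by
  have h2 := h M le_rfl
  rw [Pool.Agent.Helper48.ROK.wsm_all] at h2
  rw [← h2, Pool.Agent.Helper29.MX.volKO_eq]
  rfl

end

end Pool.Agent.Helper26.VSV
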