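import Pool.Agent.Helper63.ZMX.Imx
import Pool.Agent.Helper7.RD.Pf
import Pool.Agent.Helper29.HX.St

/-! LOWER BOUNDS OF THE NUMBERS OF A ZOOM on all events of all extensions, from the exact numbers of the system. -/

set_option autoImplicit false

namespace Pool.Agent.Helper26.VSV

open Finset Filter Topology Matrix Pool.Agent.Helper69.RK Pool.Agent.Helper31.EC Pool.Agent.Helper31.EC.Sp
open Pool.Agent.Helper40.EL Pool.Agent.Helper89.LX Pool.Agent.Helper3.LF Pool.Agent.Helper84.MT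
open Pool.Agent.Helper7.GZ Pool.Agent.Helper7.RD Pool.Agent.Helper36.AM
open Pool.Agent.Helper87.NSL (cndR KnS)
open Pool.Agent.Helper89.RAD (cnA DMA)
open Pool.Agent.Helper63.ZMX
open Pool.Agent.Helper29.MX
open Pool.Agent.Helper29.HX (NumA)

noncomputable section

variable {S T : Sp} {M m : ℕ} {E E' : ℕ → ℕ} {ι : Type}

/-- the sum of the first weights -/
theorem sum_castLE (w : Fin M → ℝ) (c : ℝ) : ∀ (m : ℕ) (hm : m ≤ M),
    ∑ i : Fin m, w (Fin.castLE hm i) * c = wsm w m * c := by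
  intro m
  induction m with
  | zero =>
    intro hm
    unfold wsm
    rw [Finset.univ_eq_empty, Finset.sum_empty, Finset.sum_eq_zero fun i _ => if_neg (Nat.not_lt_zero _), zero_mul]
  | succ m ih =>
    intro hm
    have h1 := ih (Nat.le_of_succ_le hm)
    rw [Fin.sum_univ_castSucc]
    have h2 : ∑ i : Fin m, w (Fin.castLE hm i.castSucc) * c = ∑ i : Fin m, w (Fin.castLE (Nat.le_of_succ_le hm) i) * c :=
      rfl
    rw [h2, h1]
    have h3 : wsm w (m + 1) = wsm w m + w (Fin.castLE hm (Fin.last m)) := by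
      unfold wsm
      have e3 : ∀ i : Fin M, (if (i : ℕ) < m + 1 then w i else 0) = (if (i : ℕ) < m then w i else 0) +
          if i = Fin.castLE hm (Fin.last m) then w i else 0 := by
        intro i
        have h5 : i = Fin.castLE hm (Fin.last m) ↔ (i : ℕ) = m := by
          rw [Fin.ext_iff]
          rfl
        by_cases h6 : (i : ℕ) < m
        · rw [if_pos h6, if_pos (by omega), if_neg (fun h => by rw [h5] at h; omega), add_zero]
        · by_cases h7 : (i : ℕ) = m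
          · rw [if_neg h6, if_pos (by omega), if_pos (h5.2 h7), zero_add]
          · rw [if_neg h6, if_neg (by omega), if_neg (fun h => h7 (h5.1 h)), add_zero]
      rw [Finset.sum_congr rfl fun i _ => e3 i, Finset.sum_add_distrib]
      congr 1
      rw [Finset.sum_ite_eq' Finset.univ (Fin.castLE hm (Fin.last m)) fun i => w i, if_pos (Finset.mem_univ _)]
    rw [h3]
    ring

section one

variable [Finite ι] {s : MSys S M E ι} {R : Rsl S} {Z : ZU S} {z : PZ Z s.Q M} {lam : Fin M → ℝ}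
  {t : MSys Z.sp M E' ι} {b : ℝ}

/-- volumes of the prefixes of the zoom, one law -/
theorem pz_volP_le (hT : z.Tri) (hK : KLb s R Z.c Z.l) (hX : t.Q = z.X) (hw : WZ Z s t b)
    (hex : ∀ e : ℝ, 0 < e → Typ (S := Z.l.sp) (fun k (ω : (Z.l k).T.Ω) => ∀ j, 2 ^ ((lam j - e) * (S.F k).n) ≤
      |MvPolynomial.eval (s.Q.v k ((Z.l k).p.π ω)) (MvPolynomial.pderiv j (z.R.p k ω j))|)) (hm : m ≤ M) :
    volP s R (Z.c + Z.u * b) hm ≤ m - ∑ i : Fin m, lam (Fin.castLE hm i) - Z.u * (m - volP t (roz Z R) b hm) := by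
  have hKi := KLb_iff.mp hK
  have hdm : DMA s (pR R) (Z.c + Z.u * b) Z.l := hKi.1.mono hw.c_le
  have h1 := z.volP_le hT (A := cnA s (pR R) (Z.c + Z.u * b)) (B := cnA t (pR (roz Z R)) b) hdm
    (fun i => ⟨i, hw.cnA_up (A := pR R) (PLe.refl _) i⟩) hKi.2 lam hex hm
  rw [← hX] at h1
  have e1 := volP_cnA s R (Z.c + Z.u * b) hm
  have e2 := volP_cnA t (roz Z R) b hm
  have e3 : volCO (LC.kz (upz Z (pR R))) (cnA t (pR (roz Z R)) b) (pfx t.Q hm) =
      volCO (LC.kz (pR (roz Z R))) (cnA t (pR (roz Z R)) b) (pfx t.Q hm) := rfl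
  rw [e3, ← e2] at h1
  rw [e1]
  exact h1

/-- **LOWER BOUNDS OF THE NUMBERS OF A ZOOM** on all events of all extensions -/
theorem low_all {W : Rsl S} (hT : z.Tri) (hW : Z.l = Lab.ofZ W) (hK : KLb s R Z.c Z.l) (hX : t.Q = z.X)
    (hw : WZ Z s t b) {w : Fin M → ℝ}
    (hex : ∀ e : ℝ, 0 < e → Typ (S := Z.l.sp) (fun k (ω : (Z.l k).T.Ω) => ∀ j, 2 ^ ((w j * Z.c - e) * (S.F k).n) ≤
      |MvPolynomial.eval (s.Q.v k ((Z.l k).p.π ω)) (MvPolynomial.pderiv j (z.R.p k ω j))|))
    (h1 : AllE (fun _ t R' => NumA w (Z.c + Z.u * b) t R') S s R) :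
    AllE (fun _ t' R' => ∀ (j : ℕ) (hj : j ≤ M), j - wsm w j * b ≤ volP t' R' b hj) Z.sp t (roz Z R) := by
  intro T p A hA m hm
  have h2 := h1 _ (pjX Z p) A (prX hA) m hm
  have h3 := pz_volP_le (s := s.im (pjX Z p) A (prX hA)) (R := R) (Z := zuX Z p A) (z := pzX z hA)
    (t := t.im p A hA) (lam := fun j => w j * Z.c) (m := m) (b := b) hT (klbX hW hK hA) (by
      show VV.im (S := Z.sp) p A t.Q = VV.im (S := Z.sp) p A z.X
      rw [hX]) (wzX hw hA)
    (fun e he => typX (Z := Z) (p := p) (A := A) hA (hex e he)) hm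
  have h4 : volP (s.im (pjX Z p) A (prX hA)) R (Z.c + Z.u * b) hm ≤ m - ∑ i : Fin m, w (Fin.castLE hm i) * Z.c -
      Z.u * (m - volP (t.im p A hA) (roz Z R) b hm) := h3
  rw [h2, sum_castLE] at h4
  have hu := Z.hu
  have h5 : Z.u * (m - wsm w m * b) ≤ Z.u * volP (t.im p A hA) (roz Z R) b hm := by linarith
  exact le_of_mul_le_mul_left h5 hu

end one

end

end Pool.Agent.Helper26.VSV
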