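import Pool.Agent.Helper26.BXD.Use
import Pool.Agent.Helper7.RD.Pf
import Pool.Agent.Helper63.FRT.Frf

/-! NO GAIN OVER A LABEL WITH A FRAME: a K-label (or any exact label) with a frame of exponents `La`, `∑ La` = the loss of
volume of the class: the zoom in the coordinates of the frame has no gain, and the box dominates all forms of the class. -/

set_option autoImplicit false

namespace Pool.Agent.Helper26.VSV

open Finset Filter Topology Matrix MvPolynomial Pool.Agent.Helper69.RK Pool.Agent.Helper31.EC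
open Pool.Agent.Helper31.EC.Sp
open Pool.Agent.Helper40.EL Pool.Agent.Helper89.LX Pool.Agent.Helper3.LF Pool.Agent.Helper84.MT
open Pool.Agent.Helper95.LF Pool.Agent.Helper36.AM Pool.Agent.Helper7.GZ
open Pool.Agent.Helper7.RD (volC volCO volC_le_of volCO_le ovlz FD0 upz)
open Pool.Agent.Helper89.RAK (DomJ)
open Pool.Agent.Helper26.BXD

noncomputable section

variable {S : Sp} {M D : ℕ}

section any

variable {Q : S.VV M} {l : Lab S} {La : Fin M → ℝ} {κ κ' : Type}

/-- **NO GAIN** at the zoom point over an exact label with a frame which has the full loss of volume -/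
theorem frm_ng [Finite κ] [Finite κ'] (f : Frm Q l La) {κ₀ : ℕ} (hκ₀ : ∀ k ω j, (f.P k ω j).totalDegree ≤ κ₀)
    (h0 : ∀ j, 0 ≤ La j) {e : ℝ} (he : 0 < e) (hLe : ∀ j, La j + e ≤ 1) (h1 : e ≤ 1) {A : κ → Part S}
    {B : κ' → Part (l.ovr e he)} (hl : l.DMf A) (hAB : ∀ i, ∃ j, PLe (B j) (l.up e he (A i))) {C : Part S}
    (hC : (LC.kz C).ev l) (hv : (M : ℝ) - ∑ j, La j ≤ volCO (LC.kz C) A Q) :
    NG (LC.kz (l.up e he C)) (f.X.chg l.V e he) B := by
  let F : FD0 Q l La := ⟨f, 0, e, le_rfl, he, by rw [zero_add]; exact h1, h0, hLe, κ₀, hκ₀⟩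
  have hX : Rows.IsX F.zu F.rows (f.X.chg l.V e he) := F.isX_of ⟨fun _ => 0, S.Sub_const le_rfl,
    Eventually.of_forall fun k ω _ j => by
      show |f.X.v k ω j - f.X.v k ω j| ≤ 0 * S.dl e k
      rw [sub_self, abs_zero, zero_mul]⟩
  have h2 := F.volCO_le (A := A) (B := B) hl hAB hC hX
  have h3 : (M : ℝ) ≤ volCO (LC.kz (l.up e he C)) B (f.X.chg l.V e he) := by
    have h4 : e * (M - volCO (LC.kz (l.up e he C)) B (f.X.chg l.V e he)) ≤ 0 := by
      have h5 := hv.trans h2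
      have h6 : (M : ℝ) - ∑ j, La j ≤ M - ∑ j, La j -
        e * (M - volCO (LC.kz (l.up e he C)) B (f.X.chg l.V e he)) := h5
      linarith
    by_contra h5
    push Not at h5
    have := mul_pos he (sub_pos.2 h5)
    linarith
  exact NG.of_volCO h3

/-- **BOX DOMINATION OVER AN EXACT LABEL WITH A FRAME**: the form of the box dominates every form of the class -/
theorem box_kz [Finite κ] (f : Frm Q l La) {κ₀ : ℕ} (hκ₀ : ∀ k ω j, (f.P k ω j).totalDegree ≤ κ₀)
    (h0 : ∀ j, 0 ≤ La j) (hL1 : ∀ j, La j < 1) {A : κ → Part S} (hl : l.DMf A) {C : Part S}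
    (hC : (LC.kz C).ev l) (hv : (M : ℝ) - ∑ j, La j ≤ volCO (LC.kz C) A Q) {x : ∀ k, FD (S.F k) (Mon M D)}
    (hx : (gaq Q D).AdfK (LC.kz C) A x) : DomJ (bfm f D κ₀) x := by
  obtain ⟨e, he, hLe, h1⟩ : ∃ e : ℝ, 0 < e ∧ (∀ j, La j + e ≤ 1) ∧ e ≤ 1 := by
    rcases isEmpty_or_nonempty (Fin M) with hM | hM
    · exact ⟨1, one_pos, fun j => (hM.false j).elim, le_rfl⟩
    · obtain ⟨j₀, hj⟩ := Finite.exists_max La
      refine ⟨1 - La j₀, sub_pos.2 (hL1 j₀), fun j => ?_, ?_⟩
      · have := hj j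
        linarith
      · have := h0 j₀
        linarith
  refine box_dom f hκ₀ h0 (fun i => (hL1 i).le) (e := e) (he := he) (A := A) (B := fun i => l.up e he (A i))
    (fun i' => ⟨i', PLe.refl _⟩) hx.1 (C' := LC.kz (l.up e he C)) (kz_ovl hx.2)
    (frm_ng f hκ₀ h0 he hLe h1 hl (fun i => ⟨i, PLe.refl _⟩) hC hv)

end any

end

end Pool.Agent.Helper26.VSV
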