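import Pool.Agent.Helper26.VSV.Tmp

/-! ROWS AND TAME TRIANGULAR MAPS: rows at the second point give rows at the first point; volumes of the prefixes from a
frame of the second point. -/

set_option autoImplicit false

namespace Pool.Agent.Helper26.VSV

open Finset Filter Topology Matrix MvPolynomial Pool.Agent.Helper69.RK Pool.Agent.Helper31.EC
open Pool.Agent.Helper31.EC.Sp
open Pool.Agent.Helper40.EL Pool.Agent.Helper89.LX Pool.Agent.Helper3.LF Pool.Agent.Helper84.MT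
open Pool.Agent.Helper95.LF Pool.Agent.Helper36.AM Pool.Agent.Helper7.GZ
open Pool.Agent.Helper7.RD (PZ FD0 upz volCO volCO_le_M)
open Pool.Agent.Helper77.WDG (nrm nrm_nonneg coeff_le_nrm nrm_bind_le totalDegree_bind_le eval_sub_le nrm_le_of_coeff)
open Pool.Agent.Helper49.KL (nrm_pderiv deg_pderiv)
open Pool.Agent.Helper29.MX (pfx)

noncomputable section

variable {S T : Sp} {M M' : ℕ}

/-- values of substitutions -/
theorem eval_bnd (f : Fin M → MvPolynomial (Fin M') ℝ) (P : MvPolynomial (Fin M) ℝ) (x : Fin M' → ℝ) :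
    eval x (bind₁ f P) = eval (fun i => eval x (f i)) P := Pool.Agent.Helper77.WDG.eval_bind _ _ _

namespace TM

variable {A B : S.VV M} (t : TM A B) {l : Lab S} {D' : ℕ} {Λ u : ℝ}

/-- the event of `lp` -/
theorem lpt (R : Rows B l M' D' Λ u) (L : ℕ → ℝ) (hL : S.Sub L) : ∃ K : ℕ → ℝ, S.Sub K ∧
    Typ (S := l.sp) (fun k (ω : (l k).T.Ω) => ∀ y : Fin M → ℝ, (∀ i, |y i - A.v k ((l k).p.π ω) i| ≤ L k * S.dl 1 k) →
      ∀ j, |eval y (bind₁ (t.p k ((l k).p.π ω)) (R.p k ω j)) - eval (B.v k ((l k).p.π ω)) (R.p k ω j)| ≤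
        K k * S.dl u k) := by
  obtain ⟨Kc, hKc, hc⟩ := t.cf
  obtain ⟨Kt, hKt, ht⟩ := t.pt
  obtain ⟨Kx, hKx, hx⟩ := A.bd
  have hS : S.Sub (fun k => Kc k * (t.D * (Kx k + L k + 1) ^ t.D * L k) + Kt k) := (Sub_evn hKc hKx hL t.D).add hKt
  obtain ⟨K, hK, h⟩ := R.lp _ hS
  have ht' : Typ (S := l.sp) (fun k (ω : (l k).T.Ω) => ∀ j,
    |eval (A.v k ((l k).p.π ω)) (t.p k ((l k).p.π ω) j) - B.v k ((l k).p.π ω) j| ≤ Kt k * S.dl 1 k) := l.pj.typ ht
  refine ⟨K, hK, (h.and ht').mono ?_⟩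
  filter_upwards [hc, hx, hL.1, hKx.1] with k a1 a2 a3 a4
  intro (ω : (l k).T.Ω) hω h2 y hy j
  have hω' : (S.F k).μ ((l k).p.π ω) ≠ 0 := (l k).p.supp ω hω
  have hr0 := (S.dl_pos 1 k).le
  have hr1 : S.dl 1 k ≤ 1 := (S.dl_anti zero_le_one k).trans_eq (S.dl_zero k)
  rw [eval_bnd]
  refine h2.1 _ (fun i => ?_) j
  have e1 := ev_near (t.deg k ((l k).p.π ω) i) (a1 _ hω' i) a4 a3 hr0 hr1 (a2 _ hω') hy
  have e2 := h2.2 i
  rw [abs_le] at e1 e2 ⊢
  constructor <;> nlinarith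

/-- ROWS AT THE SECOND POINT GIVE ROWS AT THE FIRST POINT -/
def rcm (R : Rows B l M' D' Λ u) (hu : 0 ≤ u) : Rows A l M' (D' * t.D) Λ u where
  p := fun k ω j => bind₁ (t.p k ((l k).p.π ω)) (R.p k ω j)
  deg := fun k ω j => totalDegree_bind_le (R.deg k ω j) _ fun i _ => t.deg _ _ _
  fn := by
    filter_upwards [R.fn, t.fn] with k h1 h2 ω ω' a b c d
    have e1 := h1 ω ω' a b c d
    have e2 := h2 ((l k).p.π ω) ((l k).p.π ω') ((l k).p.supp ω a) ((l k).p.supp ω' b) (((l k).p.hZ ω ω' a b).1 c)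
    rw [e1, e2]
  cf := by
    obtain ⟨Kc, hKc, hc⟩ := t.cf
    obtain ⟨K, hK, h⟩ := R.cf
    refine ⟨fun k => ((D' : ℝ) + 1) ^ M * K k * (Kc k + 1) ^ D',
      ((S.Sub_const (by positivity)).mul hK).mul (Sub_pow' (hKc.add (S.Sub_const zero_le_one)) D'), ?_⟩
    filter_upwards [hc, h, hKc.1, hK.1] with k a1 a2 a3 a4 ω hω j a
    have h1 : nrm (R.p k ω j) ≤ ((D' : ℝ) + 1) ^ M * (K k * 2 ^ (Λ * (S.F k).n)) := by
      have := nrm_le_of_coeff (R.deg k ω j) (show 0 ≤ K k * 2 ^ (Λ * (S.F k).n) by positivity) (a2 ω hω j)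
      rwa [Fintype.card_fin] at this
    refine (coeff_le_nrm _ a).trans ((nrm_bind_le (T := Kc k + 1) (by linarith) (R.deg k ω j) _ fun i _ =>
      (a1 _ ((l k).p.supp ω hω) i).trans (by linarith)).trans ?_)
    refine (mul_le_mul_of_nonneg_right h1 (by positivity)).trans (le_of_eq ?_)
    ring
  bd := by
    obtain ⟨K, hK, h⟩ := R.bd
    obtain ⟨K', hK', h'⟩ := t.lpt R (fun _ => 0) (S.Sub_const le_rfl)
    refine ⟨fun k => K' k + K k, hK'.add hK, (h.and h').mono ?_⟩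
    filter_upwards [hK'.1] with k h0 ω _ h2 j
    have e1 := h2.2 (A.v k ((l k).p.π ω)) (fun i => by rw [sub_self, abs_zero, zero_mul]) j
    have e2 := h2.1 j
    have e3 : S.dl u k ≤ 1 := by
      rw [← S.dl_zero k]
      exact S.dl_anti hu k
    have e4 := mul_le_mul_of_nonneg_left e3 h0
    rw [abs_le] at e1 e2 ⊢
    constructor <;> linarith
  lp := by
    intro L hL
    obtain ⟨K, hK, h⟩ := t.lpt R L hL
    refine ⟨fun k => K k + K k, hK.add hK, h.mono ?_⟩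
    filter_upwards [hL.1] with k h0 ω _ h2 y hy j
    have e1 := h2 y hy j
    have e2 := h2 (A.v k ((l k).p.π ω)) (fun i => by
      rw [sub_self, abs_zero]
      exact mul_nonneg h0 (S.dl_pos 1 k).le) j
    rw [abs_le] at e1 e2 ⊢
    constructor <;> linarith

/-- PAIRS OF POINTS -/
def pz {Z : ZU S} (z : PZ Z B M') : PZ Z A M' where
  D := z.D * t.D
  Λ := z.Λ
  R := t.rcm z.R Z.hu.le
  X := z.X
  hX := by
    obtain ⟨K, hK, h⟩ := z.hX
    obtain ⟨K', hK', h'⟩ := t.lpt z.R (fun _ => 0) (S.Sub_const le_rfl)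
    refine ⟨fun k => K k + K' k, hK.add hK', (Typ.and (S := Z.sp) h h').mono (Eventually.of_forall fun k ω _ h2 j => ?_)⟩
    have e1 : |z.X.v k ω j - eval (B.v k ((Z.l k).p.π ω)) (z.R.p k ω j)| ≤ K k * S.dl Z.u k := h2.1 j
    have e2 : |eval (A.v k ((Z.l k).p.π ω)) (bind₁ (t.p k ((Z.l k).p.π ω)) (z.R.p k ω j)) -
      eval (B.v k ((Z.l k).p.π ω)) (z.R.p k ω j)| ≤ K' k * S.dl Z.u k :=
        h2.2 (A.v k ((Z.l k).p.π ω)) (fun i => by rw [sub_self, abs_zero, zero_mul]) j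
    show |z.X.v k ω j - eval (A.v k ((Z.l k).p.π ω)) (bind₁ (t.p k ((Z.l k).p.π ω)) (z.R.p k ω j))| ≤ _
    rw [abs_le] at e1 e2 ⊢
    constructor <;> linarith

theorem pz_X {Z : ZU S} (z : PZ Z B M') : (t.pz z).X = z.X := rfl

/-- triangular rows -/
theorem pz_tri {Z : ZU S} {z : PZ Z B M} (hz : z.Tri) : (t.pz z).Tri := by
  classical
  intro k ω j i hi
  have h1 : i ∈ (bind₁ (t.p k ((Z.l k).p.π ω)) (z.R.p k ω j)).vars := hi
  obtain ⟨a, ha, hb⟩ := Finset.mem_biUnion.1 (MvPolynomial.vars_bind₁ _ _ h1)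
  exact (t.tri k _ a i hb).trans (hz k ω j a ha)

/-- the derivatives of the diagonal -/
theorem pz_pd {Z : ZU S} {z : PZ Z B M} (hz : z.Tri) (k : ℕ) (ω : (Z.l k).T.Ω) (x : Fin M → ℝ) (j : Fin M) :
    eval x (pderiv j ((t.pz z).R.p k ω j)) = eval (fun i => eval x (t.p k ((Z.l k).p.π ω) i)) (pderiv j (z.R.p k ω j)) *
      eval x (pderiv j (t.p k ((Z.l k).p.π ω) j)) := by
  show eval x (pderiv j (bind₁ (t.p k ((Z.l k).p.π ω)) (z.R.p k ω j))) = _
  rw [Pool.Agent.Helper7.GZ.pderiv_bind', map_sum, Finset.sum_eq_single j]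
  · rw [map_mul, eval_bnd]
  · intro i _ hij
    rcases lt_or_gt_of_ne hij with h | h
    · have h1 : pderiv j (t.p k ((Z.l k).p.π ω) i) = 0 := pderiv_eq_zero_of_notMem_vars fun h2 =>
        absurd (t.tri k _ i j h2) (not_le_of_gt h)
      rw [h1, mul_zero, map_zero]
    · have h1 : pderiv i (z.R.p k ω j) = 0 := pderiv_eq_zero_of_notMem_vars fun h2 =>
        absurd (hz k ω j i h2) (not_le_of_gt h)
      rw [h1, map_zero, zero_mul, map_zero]
  · intro h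
    exact absurd (Finset.mem_univ j) h

include t in
/-- **VOLUMES OF THE PREFIXES AT THE FIRST POINT, from a frame of the second point** -/
theorem num_le {La : Fin M → ℝ} (g : Frm B l La) (h0 : ∀ j, 0 ≤ La j) {e : ℝ} (he : 0 < e) (he1 : e ≤ 1)
    (h1 : ∀ j, La j + e ≤ 1) {d : ℕ} (hd : ∀ k ω j, (g.P k ω j).totalDegree ≤ d) {κ : Type} [Finite κ]
    {Cn : κ → Part S} (hl : l.DMf Cn) {C : Part S} (hC : (LC.kz C).ev l) {m : ℕ} (hm : m ≤ M) :
    volCO (LC.kz C) Cn (pfx A hm) ≤ m - ∑ i : Fin m, La (Fin.castLE hm i) := by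
  let F : FD0 B l La := ⟨g, 0, e, le_rfl, he, by rw [zero_add]; exact he1, h0, h1, d, hd⟩
  have hF : (F.pz F.XV F.isX_XV).Tri := F.tri F.XV F.isX_XV
  have h2 := (t.pz (F.pz F.XV F.isX_XV)).volP_le (t.pz_tri hF) (A := Cn) (B := fun i => upz F.zu (Cn i)) hl
    (fun i => ⟨i, PLe.refl _⟩) hC La (fun η hη => by
      refine (Typ.mono (S := l.sp) (l.pj.typ (t.ex η hη)) (Eventually.of_forall fun k ω _ h3 j => ?_))
      have h4 := h3 j
      have h5 : eval (A.v k ((F.zu.l k).p.π ω)) (pderiv j ((t.pz (F.pz F.XV F.isX_XV)).R.p k ω j)) =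
          2 ^ (La j * (S.F k).n) * eval (A.v k ((l k).p.π ω)) (pderiv j (t.p k ((l k).p.π ω) j)) := by
        refine (t.pz_pd hF k ω (A.v k ((F.zu.l k).p.π ω)) j).trans ?_
        exact congrArg (fun x => x * eval (A.v k ((l k).p.π ω)) (pderiv j (t.p k ((l k).p.π ω) j)))
          (F.pd F.XV F.isX_XV k ω _ j)
      rw [h5, abs_mul, abs_of_pos (by positivity : (0 : ℝ) < 2 ^ (La j * (S.F k).n))]
      have h6 : (2 : ℝ) ^ ((La j - η) * (S.F k).n) = 2 ^ (La j * (S.F k).n) * 2 ^ (-η * (S.F k).n) := by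
        rw [← Real.rpow_add (by norm_num)]
        congr 1
        ring
      rw [h6]
      exact mul_le_mul_of_nonneg_left h4 (by positivity)) hm
  have h3 : volCO (LC.kz (upz F.zu C)) (fun i => upz F.zu (Cn i)) (pfx (t.pz (F.pz F.XV F.isX_XV)).X hm) ≤ m :=
    volCO_le_M
  have h4 : 0 ≤ F.zu.u * (m - volCO (LC.kz (upz F.zu C)) (fun i => upz F.zu (Cn i))
    (pfx (t.pz (F.pz F.XV F.isX_XV)).X hm)) := mul_nonneg he.le (sub_nonneg.2 h3)
  linarith

end TM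

end

end Pool.Agent.Helper26.VSV
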