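import Pool.Agent.Helper49.KL.Rel
import Pool.Agent.Helper7.RD.Pf
import Pool.Agent.Helper50.BLD.Imq

/-! TAME TRIANGULAR MAPS between two points of a space: polynomials of bounded degree, known to the base, with tame
coefficients; the derivatives of the diagonal are typically not small. Events, close points, cells, rows: rows at the second
point give rows at the first point, so forms at the second point give forms at the first point with the same volumes of all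
prefixes. -/

set_option autoImplicit false

namespace Pool.Agent.Helper26.VSV

open Finset Filter Topology Matrix MvPolynomial Pool.Agent.Helper69.RK Pool.Agent.Helper31.EC
open Pool.Agent.Helper31.EC.Sp
open Pool.Agent.Helper40.EL Pool.Agent.Helper89.LX Pool.Agent.Helper3.LF Pool.Agent.Helper84.MT
open Pool.Agent.Helper95.LF Pool.Agent.Helper36.AM Pool.Agent.Helper7.GZ
open Pool.Agent.Helper7.RD (PZ FD0 upz volCO volCO_le_M)
open Pool.Agent.Helper77.WDG (nrm nrm_nonneg coeff_le_nrm nrm_bind_le totalDegree_bind_le eval_sub_le nrm_le_of_coeff)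
open Pool.Agent.Helper49.KL (nrm_pderiv deg_pderiv)
open Pool.Agent.Helper29.MX (pfx)

noncomputable section

variable {S T : Sp} {M M' : ℕ}

/-! ### numeric lemmas -/

/-- values of tame polynomials at close points -/
theorem ev_near {P : MvPolynomial (Fin M) ℝ} {D : ℕ} (hD : P.totalDegree ≤ D) {Kn Kx L r : ℝ} (hn : nrm P ≤ Kn)
    (h0 : 0 ≤ Kx) (hL : 0 ≤ L) (hr : 0 ≤ r) (hr1 : r ≤ 1) {x y : Fin M → ℝ} (hx : ∀ i, |x i| ≤ Kx)
    (hy : ∀ i, |y i - x i| ≤ L * r) : |eval y P - eval x P| ≤ Kn * (D * (Kx + L + 1) ^ D * L) * r := by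
  have hT : 1 ≤ Kx + L + 1 := by linarith
  have hLr : L * r ≤ L := mul_le_of_le_one_right hL hr1
  have h1 := eval_sub_le (P := P) hT (mul_nonneg hL hr) hD (u := y) (v := x) (fun i _ => by
    have h2 := hy i
    have h3 := hx i
    have h4 := abs_add_le (y i - x i) (x i)
    rw [sub_add_cancel] at h4
    linarith) (fun i _ => by
    have h3 := hx i
    linarith) (fun i _ => hy i)
  refine h1.trans ?_
  have h2 := mul_le_mul_of_nonneg_right hn (show 0 ≤ (D : ℝ) * (Kx + L + 1) ^ D * (L * r) by positivity)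
  refine h2.trans (le_of_eq ?_)
  ring

theorem Sub_evn {Kn Kx L : ℕ → ℝ} (hn : S.Sub Kn) (hx : S.Sub Kx) (hL : S.Sub L) (D : ℕ) :
    S.Sub (fun k => Kn k * (D * (Kx k + L k + 1) ^ D * L k)) :=
  hn.mul (((S.Sub_const (Nat.cast_nonneg _)).mul (Sub_pow' ((hx.add hL).add (S.Sub_const zero_le_one)) D)).mul hL)

theorem low_sub {K : ℕ → ℝ} (hK : S.Sub K) {η : ℝ} (hη : 0 < η) (hη1 : η ≤ 1) : ∀ᶠ k in UF, ∀ a b : ℝ,
    2 ^ (-(η / 2) * (S.F k).n) ≤ |a| → |b - a| ≤ K k * S.dl 1 k → 2 ^ (-η * (S.F k).n) ≤ |b| := by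
  have h1 := hK.eventually_le (show (0 : ℝ) < 1 / 4 by norm_num)
  have h2 := S.lim.eventually (eventually_ge_atTop (max 4 (2 / η) : ℝ))
  filter_upwards [h1, h2] with k a1 a2 a b ha hb
  have hn := (S.F k).pos
  have hn4 : 4 ≤ (S.F k).n := (le_max_left _ _).trans a2
  have hnη : 2 / η ≤ (S.F k).n := (le_max_right _ _).trans a2
  rw [div_le_iff₀ hη] at hnη
  have e1 : K k * S.dl 1 k ≤ 2 ^ (-(3 / 4) * (S.F k).n) := by
    have h3 : K k * S.dl 1 k ≤ 2 ^ (1 / 4 * (S.F k).n) * S.dl 1 k :=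
      mul_le_mul_of_nonneg_right (by linarith) (S.dl_pos 1 k).le
    refine h3.trans (le_of_eq ?_)
    unfold Sp.dl
    rw [← Real.rpow_add (by norm_num)]
    congr 1
    ring
  have e2 : (2 : ℝ) ^ (-(3 / 4) * (S.F k).n) ≤ 2 ^ (-(η / 2) * (S.F k).n - 1) := by
    apply Real.rpow_le_rpow_of_exponent_le (by norm_num)
    nlinarith
  have e3 : (2 : ℝ) ^ (-η * (S.F k).n) ≤ 2 ^ (-(η / 2) * (S.F k).n - 1) := by
    apply Real.rpow_le_rpow_of_exponent_le (by norm_num)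
    nlinarith
  have e4 : (2 : ℝ) ^ (-(η / 2) * (S.F k).n - 1) = 2 ^ (-(η / 2) * (S.F k).n) / 2 := by
    rw [Real.rpow_sub_one (by norm_num)]
  have h5 := abs_sub_abs_le_abs_sub a b
  rw [abs_sub_comm a b] at h5
  linarith

/-! ### tame triangular maps -/

/-- A TAME TRIANGULAR MAP from the point `A` to the point `B` -/
structure TM (A B : S.VV M) where
  D : ℕ
  p : ∀ k, (S.F k).Ω → Fin M → MvPolynomial (Fin M) ℝ
  deg : ∀ k ω j, (p k ω j).totalDegree ≤ D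
  tri : ∀ k ω j, ∀ i ∈ (p k ω j).vars, i ≤ j
  fn : ∀ᶠ k in UF, ∀ ω ω', (S.F k).μ ω ≠ 0 → (S.F k).μ ω' ≠ 0 → (S.F k).Z ω ω' → p k ω = p k ω'
  cf : ∃ K : ℕ → ℝ, S.Sub K ∧ ∀ᶠ k in UF, ∀ ω, (S.F k).μ ω ≠ 0 → ∀ j, nrm (p k ω j) ≤ K k
  pt : ∃ K : ℕ → ℝ, S.Sub K ∧ S.Typ fun k ω => ∀ j, |eval (A.v k ω) (p k ω j) - B.v k ω j| ≤ K k * S.dl 1 k
  ex : ∀ η : ℝ, 0 < η → S.Typ fun k ω => ∀ j, 2 ^ (-η * (S.F k).n) ≤ |eval (A.v k ω) (pderiv j (p k ω j))|

namespace TM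

variable {A B : S.VV M}

open Classical in
/-- from coefficients which are tame on a typical event -/
def mk' {D : ℕ} {p : ∀ k, (S.F k).Ω → Fin M → MvPolynomial (Fin M) ℝ} (deg : ∀ k ω j, (p k ω j).totalDegree ≤ D)
    (tri : ∀ k ω j, ∀ i ∈ (p k ω j).vars, i ≤ j)
    (fn : ∀ᶠ k in UF, ∀ ω ω', (S.F k).μ ω ≠ 0 → (S.F k).μ ω' ≠ 0 → (S.F k).Z ω ω' → p k ω = p k ω')
    (K : ℕ → ℝ) (hK : S.Sub K) (cf : S.Typ fun k ω => ∀ j, nrm (p k ω j) ≤ K k)
    (pt : ∃ K : ℕ → ℝ, S.Sub K ∧ S.Typ fun k ω => ∀ j, |eval (A.v k ω) (p k ω j) - B.v k ω j| ≤ K k * S.dl 1 k)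
    (ex : ∀ η : ℝ, 0 < η → S.Typ fun k ω => ∀ j,
      2 ^ (-η * (S.F k).n) ≤ |eval (A.v k ω) (pderiv j (p k ω j))|) : TM A B where
  D := D
  p := fun k ω => if ∀ j, nrm (p k ω j) ≤ K k then p k ω else 0
  deg := fun k ω j => by
    split_ifs
    · exact deg k ω j
    · show (0 : MvPolynomial (Fin M) ℝ).totalDegree ≤ D
      rw [totalDegree_zero]
      exact Nat.zero_le _
  tri := fun k ω j i hi => by
    split_ifs at hi
    · exact tri k ω j i hi
    · have h1 : i ∈ (0 : MvPolynomial (Fin M) ℝ).vars := hi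
      rw [vars_0] at h1
      exact absurd h1 (Finset.notMem_empty i)
  fn := by
    filter_upwards [fn] with k h ω ω' a b c
    rw [h ω ω' a b c]
  cf := by
    refine ⟨K, hK, ?_⟩
    filter_upwards [hK.1] with k h0 ω _ j
    split_ifs with h
    · exact h j
    · show nrm (0 : MvPolynomial (Fin M) ℝ) ≤ K k
      rw [Pool.Agent.Helper77.WDG.nrm_zero]
      exact h0
  pt := by
    obtain ⟨K', hK', h⟩ := pt
    refine ⟨K', hK', (h.and cf).mono (Eventually.of_forall fun k ω _ h2 j => ?_)⟩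
    rw [if_pos h2.2]
    exact h2.1 j
  ex := fun η hη => ((ex η hη).and cf).mono (Eventually.of_forall fun k ω _ h2 j => by
    rw [if_pos h2.2]
    exact h2.1 j)

variable (t : TM A B)

/-- on events of extensions -/
def im (q : Pj T S) (E : ∀ k, (T.F k).Ω → Prop) (hE : 0 < ul (T.pr E)) : TM (A.im q E) (B.im q E) where
  D := t.D
  p := t.p
  deg := t.deg
  tri := t.tri
  fn := by
    filter_upwards [t.fn] with k h ω ω' a b c
    exact h ω ω' (FSp.im_supp (q.fp k) (E k) ω a) (FSp.im_supp (q.fp k) (E k) ω' b) c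
  cf := by
    obtain ⟨K, hK, h⟩ := t.cf
    refine ⟨K, hK, ?_⟩
    filter_upwards [h] with k hk ω a
    exact hk ω (FSp.im_supp (q.fp k) (E k) ω a)
  pt := by
    obtain ⟨K, hK, h⟩ := t.pt
    exact ⟨K, hK, Pool.Agent.Helper50.BLD.typ_im q E hE h⟩
  ex := fun η hη => Pool.Agent.Helper50.BLD.typ_im q E hE (t.ex η hη)

/-- close points -/
def near {A' B' : S.VV M}
    (hA : ∃ K : ℕ → ℝ, S.Sub K ∧ ∀ᶠ k in UF, ∀ ω, (S.F k).μ ω ≠ 0 → ∀ j, |A'.v k ω j - A.v k ω j| ≤ K k * S.dl 1 k)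
    (hB : ∃ K : ℕ → ℝ, S.Sub K ∧ ∀ᶠ k in UF, ∀ ω, (S.F k).μ ω ≠ 0 → ∀ j, |B'.v k ω j - B.v k ω j| ≤ K k * S.dl 1 k) :
    TM A' B' where
  D := t.D
  p := t.p
  deg := t.deg
  tri := t.tri
  fn := t.fn
  cf := t.cf
  pt := by
    obtain ⟨Ka, hKa, ha⟩ := hA
    obtain ⟨Kb, hKb, hb⟩ := hB
    obtain ⟨Kc, hKc, hc⟩ := t.cf
    obtain ⟨Kt, hKt, ht⟩ := t.pt
    obtain ⟨Kx, hKx, hx⟩ := A.bd
    refine ⟨fun k => Kc k * (t.D * (Kx k + Ka k + 1) ^ t.D * Ka k) + (Kt k + Kb k),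
      (Sub_evn hKc hKx hKa t.D).add (hKt.add hKb), ht.mono ?_⟩
    filter_upwards [ha, hb, hc, hx, hKa.1, hKx.1] with k a1 a2 a3 a4 a5 a6 ω hω h j
    have hr0 := (S.dl_pos 1 k).le
    have hr1 : S.dl 1 k ≤ 1 := (S.dl_anti zero_le_one k).trans_eq (S.dl_zero k)
    have h1 := ev_near (t.deg k ω j) (a3 ω hω j) a6 a5 hr0 hr1 (a4 ω hω) (a1 ω hω)
    have h2 := h j
    have h3 := a2 ω hω j
    rw [abs_le] at h1 h2 h3 ⊢
    constructor <;> nlinarith
  ex := by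
    obtain ⟨Ka, hKa, ha⟩ := hA
    obtain ⟨Kc, hKc, hc⟩ := t.cf
    obtain ⟨Kx, hKx, hx⟩ := A.bd
    have key : ∀ η : ℝ, 0 < η → η ≤ 1 → S.Typ fun k ω => ∀ j,
        2 ^ (-η * (S.F k).n) ≤ |eval (A'.v k ω) (pderiv j (t.p k ω j))| := by
      intro η hη hη1
      have hS : S.Sub (fun k => (t.D * Kc k) * (t.D * (Kx k + Ka k + 1) ^ t.D * Ka k)) :=
        Sub_evn ((S.Sub_const (Nat.cast_nonneg _)).mul hKc) hKx hKa t.D
      refine (t.ex (η / 2) (by linarith)).mono ?_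
      filter_upwards [ha, hc, hx, hKa.1, hKx.1, low_sub hS hη hη1] with k a1 a3 a4 a5 a6 a7 ω hω h j
      have hr0 := (S.dl_pos 1 k).le
      have hr1 : S.dl 1 k ≤ 1 := (S.dl_anti zero_le_one k).trans_eq (S.dl_zero k)
      refine a7 _ _ (h j) ?_
      refine ev_near ((deg_pderiv j _).trans (t.deg k ω j)) ?_ a6 a5 hr0 hr1 (a4 ω hω) (a1 ω hω)
      exact (nrm_pderiv j _ (t.deg k ω j)).trans (mul_le_mul_of_nonneg_left (a3 ω hω j) (Nat.cast_nonneg _))
    intro η hη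
    refine (key (min η 1) (lt_min hη one_pos) (min_le_right _ _)).mono (Eventually.of_forall fun k ω _ h j => ?_)
    refine le_trans ?_ (h j)
    apply Real.rpow_le_rpow_of_exponent_le (by norm_num)
    have h1 := min_le_left η 1
    have h2 := (S.F k).pos
    nlinarith

/-- TRUNCATION -/
def chg {e : ℝ} (he : 0 < e) (h1 : e ≤ 1) : TM (A.chg S.tr e he) (B.chg S.tr e he) where
  D := t.D
  p := t.p
  deg := t.deg
  tri := t.tri
  fn := by
    filter_upwards [t.fn] with k h ω ω' a b c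
    exact h ω ω' a b c.2
  cf := by
    obtain ⟨K, hK, h⟩ := t.cf
    exact ⟨K, chg_sub S.tr e he hK, h⟩
  pt := by
    obtain ⟨K, hK, h⟩ := t.pt
    refine ⟨K, chg_sub S.tr e he hK, Typ.mono (S := S) h ?_⟩
    filter_upwards [hK.1] with k h0 ω _ h2 j
    have h3 : (S.chg S.tr e he).dl 1 k = S.dl e k := by rw [chg_dl, mul_one]
    rw [h3]
    exact (h2 j).trans (mul_le_mul_of_nonneg_left (S.dl_anti h1 k) h0)
  ex := fun η hη => by
    have h2 := t.ex (η * e) (mul_pos hη he)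
    refine Typ.mono (S := S) h2 (Eventually.of_forall fun k ω _ h j => ?_)
    refine le_trans (le_of_eq ?_) (h j)
    show (2 : ℝ) ^ (-η * (e * (S.F k).n)) = _
    congr 1
    ring

end TM

end

end Pool.Agent.Helper26.VSV
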