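import Pool.Agent.Helper26.VSV.Tmp
import Pool.Agent.Helper18.TRF.Ful

/-! THE ROWS OF A ZOOM IN THE COORDINATES OF A FRAME over the same label: the polynomials (rows of the zoom) o (chart of the
frame) are a tame triangular map from the exact coordinates of the frame to the point of the zoom, if the exponents of the
flag are the exponents of the frame and the number of the system at the window of the zoom is exact. -/

set_option autoImplicit false

namespace Pool.Agent.Helper26.VSV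

open Finset Filter Topology Matrix MvPolynomial Pool.Agent.Helper69.RK Pool.Agent.Helper31.EC
open Pool.Agent.Helper31.EC.Sp
open Pool.Agent.Helper40.EL Pool.Agent.Helper89.LX Pool.Agent.Helper3.LF Pool.Agent.Helper84.MT
open Pool.Agent.Helper95.LF Pool.Agent.Helper36.AM Pool.Agent.Helper7.GZ
open Pool.Agent.Helper7.RD (PZ FD0 RW upz volCO volCO_le_M KLb_iff volKO_eq pR roz pR_roz)
open Pool.Agent.Helper77.WDG (nrm nrm_nonneg totalDegree_bind_le)
open Pool.Agent.Helper26.BXD (chp chp_eval chp_deg chp_inv NG)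
open Pool.Agent.Helper18.TRF (Ful ful_ng Sub_sum)
open Pool.Agent.Helper87.NSL (cndR KnS)
open Pool.Agent.Helper89.RAD (cnA)
open Pool.Agent.Helper29.MX

noncomputable section

variable {S : Sp} {M : ℕ} {E : ℕ → ℕ} {ι : Type}

/-! ### the chart -/

section cht
variable {P : Fin M → MvPolynomial (Fin M) ℝ} (tri : ∀ j, ∀ i ∈ (P j).vars, i < j) (d : Fin M → ℝ)

include tri

theorem chp_vars (j : Fin M) : ∀ i ∈ (chp P d j).vars, i ≤ j := by
  classical
  intro i hi
  unfold chp at hi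
  rcases Finset.mem_union.1 (vars_add_subset _ _ hi) with h | h
  · obtain ⟨a, ha, hb⟩ := Finset.mem_biUnion.1 (vars_bind₁ _ _ h)
    have h1 := vars_mul _ _ hb
    rw [vars_C, Finset.empty_union, vars_X, Finset.mem_singleton] at h1
    rw [h1]
    exact (tri j a ha).le
  · have h1 := vars_mul _ _ h
    rw [vars_C, Finset.empty_union, vars_X, Finset.mem_singleton] at h1
    exact h1.le

theorem chp_pd (x : Fin M → ℝ) (j : Fin M) : eval x (pderiv j (chp P d j)) = d j := by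
  classical
  unfold chp
  rw [map_add, Pool.Agent.Helper7.GZ.pderiv_bind']
  have h1 : ∑ i, bind₁ (fun i => C (d i) * X i) (pderiv i (P j)) * pderiv j (C (d i) * X i : MvPolynomial (Fin M) ℝ) = 0 := by
    apply Finset.sum_eq_zero
    intro i _
    by_cases hi : i ∈ (P j).vars
    · have h2 : pderiv j (C (d i) * X i : MvPolynomial (Fin M) ℝ) = 0 := by
        rw [pderiv_C_mul, pderiv_X_of_ne (tri j i hi).ne, mul_zero]
      rw [h2, mul_zero]
    · rw [pderiv_eq_zero_of_notMem_vars hi, map_zero, zero_mul]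
  rw [h1, zero_add, pderiv_C_mul, map_mul, eval_C, pderiv_X_self, map_one, mul_one]

end cht

section tzf

variable {s : MSys S M E ι} (z : RW s M) {La : Fin M → ℝ} (f : Frm s.Q z.Z.l La) (h0 : ∀ j, 0 ≤ La j)
  (hu : ∀ j, La j + z.Z.u ≤ 1) {d : ℕ} (hd : ∀ k ω j, (f.P k ω j).totalDegree ≤ d)

/-- the frame with the data of the zoom -/
def zfd : FD0 s.Q z.Z.l La := ⟨f, z.Z.c, z.Z.u, z.Z.h0, z.Z.hu, z.Z.h1, h0, hu, d, hd⟩

theorem zfd_zu : (zfd z f h0 hu hd).zu = z.Z := rfl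

/-- the exact coordinates of the frame, a point of the space of the zoom -/
abbrev zfx : z.Z.sp.VV M := (zfd z f h0 hu hd).XV

/-- the rows of the zoom in the coordinates of the frame -/
def tzp (k : ℕ) (ω : (z.Z.l k).T.Ω) (j : Fin M) : MvPolynomial (Fin M) ℝ :=
  bind₁ (chp (f.P k ω) fun i => S.dl (La i) k) (z.R.p k ω j)

include hd in
theorem tzp_deg (k : ℕ) (ω : (z.Z.l k).T.Ω) (j : Fin M) : (tzp z f k ω j).totalDegree ≤ z.D * (d + 1) :=
  totalDegree_bind_le (z.R.deg k ω j) _ fun i _ => chp_deg _ _ (fun j => hd k ω j) i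

theorem tzp_fn : ∀ᶠ k in UF, ∀ ω ω' : (z.Z.l k).T.Ω, (z.Z.l k).T.μ ω ≠ 0 → (z.Z.l k).T.μ ω' ≠ 0 →
    (z.Z.sp.F k).Z ω ω' → tzp z f k ω = tzp z f k ω' := by
  filter_upwards [f.fn, z.R.fn] with k h1 h2 ω ω' a b c
  obtain ⟨g1, g2, -⟩ := z.Z.hZ k ω ω' a b c
  have e1 : f.P k ω = f.P k ω' := h1 ω ω' a b g2 g1
  have e2 : z.R.p k ω = z.R.p k ω' := h2 ω ω' a b g2 g1
  funext j
  unfold tzp
  rw [e1, e2]

/-- the chart at the exact coordinates is the point -/
theorem chp_zfx (k : ℕ) (ω : (z.Z.l k).T.Ω) (i : Fin M) :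
    eval ((zfx z f h0 hu hd).v k ω) (chp (f.P k ω) (fun i => S.dl (La i) k) i) = s.Q.v k ((z.Z.l k).p.π ω) i := by
  have h1 := chp_inv (P := f.P k ω) (f.tri k ω) (fun i => S.dl (La i) k) (fun i => (S.dl_pos _ _).ne')
    (s.Q.v k ((z.Z.l k).p.π ω)) i
  have h2 : (zfx z f h0 hu hd).v k ω = fun i => (S.dl (La i) k)⁻¹ *
      eval (s.Q.v k ((z.Z.l k).p.π ω)) (inv (f.P k ω) i) := by
    funext i
    show eval (s.Q.v k ((z.Z.l k).p.π ω)) (C (S.dl (La i) k)⁻¹ * inv (f.P k ω) i) = _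
    rw [map_mul, eval_C]
  rw [h2]
  exact h1

theorem tzp_eval (k : ℕ) (ω : (z.Z.l k).T.Ω) (j : Fin M) :
    eval ((zfx z f h0 hu hd).v k ω) (tzp z f k ω j) = eval (s.Q.v k ((z.Z.l k).p.π ω)) (z.R.p k ω j) := by
  unfold tzp
  rw [Pool.Agent.Helper77.WDG.eval_bind]
  congr 1
  congr 1
  funext i
  exact chp_zfx z f h0 hu hd k ω i

variable (hf : Flg z La)

include hf

theorem tzp_tri (k : ℕ) (ω : (z.Z.l k).T.Ω) (j : Fin M) : ∀ i ∈ (tzp z f k ω j).vars, i ≤ j := by
  classical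
  intro i hi
  unfold tzp at hi
  obtain ⟨a, ha, hb⟩ := Finset.mem_biUnion.1 (vars_bind₁ _ _ hi)
  exact (chp_vars (f.tri k ω) _ a i hb).trans (hf.tri k ω j a ha)

theorem tzp_pd (k : ℕ) (ω : (z.Z.l k).T.Ω) (j : Fin M) :
    eval ((zfx z f h0 hu hd).v k ω) (pderiv j (tzp z f k ω j)) =
      eval (s.Q.v k ((z.Z.l k).p.π ω)) (pderiv j (z.R.p k ω j)) * S.dl (La j) k := by
  unfold tzp
  rw [Pool.Agent.Helper7.GZ.pderiv_bind', map_sum, Finset.sum_eq_single j]
  · rw [map_mul, Pool.Agent.Helper77.WDG.eval_bind, chp_pd (f.tri k ω)]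
    congr 1
    congr 1
    congr 1
    funext i
    exact chp_zfx z f h0 hu hd k ω i
  · intro i _ hij
    rcases lt_or_gt_of_ne hij with h | h
    · have h1 : pderiv j (chp (f.P k ω) (fun i => S.dl (La i) k) i) = 0 := pderiv_eq_zero_of_notMem_vars fun h2 =>
        absurd (chp_vars (f.tri k ω) _ i j h2) (not_le_of_gt h)
      rw [h1, mul_zero, map_zero]
    · have h1 : pderiv i (z.R.p k ω j) = 0 := pderiv_eq_zero_of_notMem_vars fun h2 =>
        absurd (hf.tri k ω j i h2) (not_le_of_gt h)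
      rw [h1, map_zero, zero_mul, map_zero]
  · intro h
    exact absurd (Finset.mem_univ j) h

/-- **THE TAME TRIANGULAR MAP** from the coordinates of the frame to the point of the zoom -/
theorem exists_tzf (hF : Ful (S := z.Z.sp) (zfx z f h0 hu hd)) : Nonempty (TM (S := z.Z.sp) (zfx z f h0 hu hd) z.X) := by
  classical
  have hj : ∀ j : Fin M, ∃ K : ℕ → ℝ, z.Z.sp.Sub K ∧ Typ (S := z.Z.sp) fun k (ω : (z.Z.l k).T.Ω) =>
      nrm (tzp z f k ω j) ≤ K k := by
    intro j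
    obtain ⟨K, hK, hb⟩ := z.R.bd
    refine hF (z.D * (d + 1)) (fun k (ω : (z.Z.l k).T.Ω) => tzp z f k ω j) (fun k ω => tzp_deg z f hd k ω j) ?_
      (zfx z f h0 hu hd).v ⟨fun _ => 0, z.Z.sp.Sub_const le_rfl, Eventually.of_forall fun k ω _ j => by
        rw [sub_self, abs_zero, zero_mul]⟩ ⟨K, z.Z.Sub_sp.1 hK, Typ.mono (S := z.Z.l.sp) hb
          (Eventually.of_forall fun k ω _ h => ?_)⟩
    · filter_upwards [tzp_fn z f] with k hk ω ω' a b c
      have h2 : tzp z f k ω = tzp z f k ω' := hk ω ω' a b c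
      rw [h2]
    · exact (congrArg (fun x : ℝ => |x|) (tzp_eval z f h0 hu hd k ω j)).trans_le (h j)
  choose K hK hT using hj
  have hall : Typ (S := z.Z.sp) fun k (ω : (z.Z.l k).T.Ω) => ∀ j, nrm (tzp z f k ω j) ≤ ∑ j, K j k := by
    refine (Typ_all (S := z.Z.sp) _ hT).mono ?_
    have h2 : ∀ᶠ k in UF, ∀ j, 0 ≤ K j k := (eventually_all).mpr fun j => (hK j).1
    filter_upwards [h2] with k hk ω _ hh j
    exact (hh j).trans (Finset.single_le_sum (f := fun j => K j k) (fun i _ => hk i) (Finset.mem_univ j))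
  refine ⟨TM.mk' (S := z.Z.sp) (D := z.D * (d + 1)) (p := fun k (ω : (z.Z.l k).T.Ω) => tzp z f k ω)
    (fun k ω j => tzp_deg z f hd k ω j) (fun k ω j => tzp_tri z f hf k ω j) (tzp_fn z f) (fun k => ∑ j, K j k)
    (Sub_sum (S := z.Z.sp) K hK) hall ?_ ?_⟩
  · obtain ⟨K', hK', h⟩ := z.hX
    refine ⟨K', z.Z.Sub_sp.1 hK', Typ.mono (S := z.Z.sp) h (Eventually.of_forall fun k ω _ h2 j => ?_)⟩
    have h3 : |z.X.v k ω j - eval (s.Q.v k ((z.Z.l k).p.π ω)) (z.R.p k ω j)| ≤ K' k * S.dl z.Z.u k := h2 j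
    have h4 : |eval ((zfx z f h0 hu hd).v k ω) (tzp z f k ω j) - z.X.v k ω j| =
        |eval (s.Q.v k ((z.Z.l k).p.π ω)) (z.R.p k ω j) - z.X.v k ω j| :=
      congrArg (fun x : ℝ => |x - z.X.v k ω j|) (tzp_eval z f h0 hu hd k ω j)
    have h5 : z.Z.sp.dl 1 k = S.dl z.Z.u k := z.Z.sp_dl1 k
    rw [abs_sub_comm, ← h5] at h3
    exact h4.trans_le h3
  · intro η hη
    have hη' : 0 < η * z.Z.u := mul_pos hη z.Z.hu
    refine Typ.mono (S := z.Z.l.sp) (hf.ex (η * z.Z.u) hη') (Eventually.of_forall fun k ω _ h j => ?_)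
    have h3 := (h j).1
    have h5 : |eval ((zfx z f h0 hu hd).v k ω) (pderiv j (tzp z f k ω j))| =
        |eval (s.Q.v k ((z.Z.l k).p.π ω)) (pderiv j (z.R.p k ω j))| * S.dl (La j) k := by
      refine (congrArg (fun x : ℝ => |x|) (tzp_pd z f h0 hu hd hf k ω j)).trans ?_
      rw [abs_mul, abs_of_pos (S.dl_pos (La j) k)]
    have h4 : (z.Z.sp.F k).n = z.Z.u * (S.F k).n := z.Z.l.n_over z.Z.u z.Z.hu k
    refine (le_trans (le_of_eq ?_) (mul_le_mul_of_nonneg_right h3 (S.dl_pos (La j) k).le)).trans h5.ge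
    rw [h4]
    unfold Sp.dl
    rw [← Real.rpow_add (by norm_num)]
    congr 1
    ring

end tzf

/-- the hull is full at the exact coordinates of a frame, if the number of the system at the window of the label is the
volume of the box -/
theorem zfd_ful [Finite ι] {s : MSys S M E ι} {R : Rsl S} (hP : Pt s R) {l : Lab S} {La : Fin M → ℝ} (F : FD0 s.Q l La)
    (hK : KLb s R F.c l) (hv : (M : ℝ) - ∑ j, La j ≤ volKO s R F.c) : Ful (S := F.zu.sp) F.XV := by
  have h1 := KLb_iff.mp hK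
  have h2 := F.volCO_le (A := cnA s (pR R) F.c) (B := fun i => upz F.zu (cnA s (pR R) F.c i)) h1.1
    (fun i => ⟨i, PLe.refl _⟩) h1.2 F.isX_XV
  rw [volKO_eq] at hv
  have h3 : (M : ℝ) ≤ volCO (LC.kz (upz F.zu (pR R))) (fun i => upz F.zu (cnA s (pR R) F.c i)) F.XV := by
    by_contra h5
    push Not at h5
    have := mul_pos F.he (sub_pos.2 h5)
    linarith
  have h4 : NG (LC.kz (upz F.zu (pR R))) F.XV (fun i => upz F.zu (cnA s (pR R) F.c i)) := NG.of_volCO h3
  exact ful_ng (S := F.zu.sp) (R := roz F.zu R) (F.XV_lit hP) h4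

end

end Pool.Agent.Helper26.VSV
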