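import Pool.Agent.Helper26.VSV.Rcm
import Pool.Agent.Helper26.VSV.Low
import Pool.Agent.Helper26.VSV.Cel
import Pool.Agent.Helper71.VIS.Cso
import Pool.Agent.Helper48.ROK.Mx

/-! UPPER BOUNDS OF THE NUMBERS on all events of all extensions, from frames of a point which is the image of the point of
the system under a tame triangular map; exact numbers at all windows from lower bounds at all windows and upper bounds at a
dense set of windows. -/

set_option autoImplicit false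

namespace Pool.Agent.Helper26.VSV

open Finset Filter Topology Matrix Pool.Agent.Helper69.RK Pool.Agent.Helper31.EC Pool.Agent.Helper31.EC.Sp
open Pool.Agent.Helper40.EL Pool.Agent.Helper89.LX Pool.Agent.Helper3.LF Pool.Agent.Helper84.MT
open Pool.Agent.Helper7.GZ Pool.Agent.Helper36.AM
open Pool.Agent.Helper87.NSL (cndR KnS)
open Pool.Agent.Helper81.CPY (frmI ple_im)
open Pool.Agent.Helper48.ROK (NumS)
open Pool.Agent.Helper71.VIS (volP_mono Cso)
open Pool.Agent.Helper29.MX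
open Pool.Agent.Helper29.HX (NumA)

noncomputable section

variable {S T : Sp} {M : ℕ} {E : ℕ → ℕ} {ι : Type}

/-- a literal K-label on an event of an extension (helper49) -/
theorem klb_ime {s : MSys S M E ι} {R W : Rsl S} {c : ℝ} (h : KLb s R c (Lab.ofZ W)) (q : Pj T S)
    (A : ∀ k, (T.F k).Ω → Prop) (hA : 0 < ul (T.pr A)) :
    KLb (s.im q A hA) R c (Lab.ofZ (S := Sp.im q A) W) := by
  obtain ⟨h1, h2⟩ := h
  rw [Lab.ofZ_DMf] at h1
  refine ⟨?_, ?_⟩
  · refine (Lab.ofZ_DMf (S := Sp.im q A) fun k => (W k : Setoid ((Sp.im q A).F k).Ω)).mpr fun i => ?_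
    have h3 := ple_im q A hA (h1 i)
    rcases i with _ | i
    · exact h3
    · exact h3
  · have h2' : ∀ᶠ k in UF, ((Lab.ofZ W) k).leak (fc (R k)) = 0 := h2
    show ∀ᶠ k in UF, ((Lab.ofZ (S := Sp.im q A) W) k).leak (fc (F := (Sp.im q A).F k) (R k)) = 0
    filter_upwards [h2'] with k hk
    rw [Lab.ofZ_leak W (fun k => fc (R k)) k] at hk
    rw [Lab.ofZ_leak (S := Sp.im q A) W (fun k => fc (F := (Sp.im q A).F k) (R k)) k]
    exact h_eq_zero_iff.2 (FSp.imap_mono (q.fp k) (A k) (h_eq_zero_iff.1 hk))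

/-- a common unit -/
theorem exists_unit' {La : Fin M → ℝ} (h1 : ∀ j, La j < 1) : ∃ e : ℝ, 0 < e ∧ e ≤ 1 ∧ ∀ j, La j + e ≤ 1 := by
  rcases isEmpty_or_nonempty (Fin M) with hM | hM
  · exact ⟨1, one_pos, le_rfl, fun j => (hM.false j).elim⟩
  · obtain ⟨j₀, hj⟩ := Finite.exists_max La
    refine ⟨min 1 (1 - La j₀), lt_min one_pos (sub_pos.2 (h1 j₀)), min_le_left _ _, fun j => ?_⟩
    have h2 := hj j
    have h3 := min_le_right 1 (1 - La j₀)
    linarith

/-- **UPPER BOUNDS** of the numbers on all events -/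
theorem up_all [Finite ι] {t : MSys S M E ι} {R2 : Rsl S} {B : S.VV M} (τ : TM t.Q B) {w : Fin M → ℝ}
    (hw : ∀ j, 1 ≤ w j) {q : ℝ} (hq : 0 ≤ q) (hwq : ∀ j, w j * q < 1) {Y : Rsl S} (hK : KLb t R2 q (Lab.ofZ Y))
    (g : Frm B (Lab.ofZ Y) fun j => w j * q) {d : ℕ} (hd : ∀ k ω j, (g.P k ω j).totalDegree ≤ d) :
    AllE (fun _ t' R' => ∀ (j : ℕ) (hj : j ≤ M), volP t' R' q hj ≤ j - wsm w j * q) S t R2 := by
  intro T p A hA m hm
  obtain ⟨e, he, he1, h1⟩ := exists_unit' (La := fun j => w j * q) hwq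
  have h2 := klb_ime hK p A hA
  have h3 := (τ.im p A hA).num_le (l := Lab.ofZ (S := Sp.im p A) Y) (frmI p A g)
    (fun j => mul_nonneg (zero_le_one.trans (hw j)) hq) he he1 h1 (d := d) (fun k ω j => hd k ω j)
    (Cn := cndR (t.im p A hA) R2 q) h2.1 (C := fun k => fc (F := (Sp.im p A).F k) (R2 k)) h2.2 hm
  rw [sum_castLE] at h3
  exact h3

/-- **EXACT NUMBERS** at all windows -/
theorem num_all [Finite ι] {t : MSys S M E ι} {R2 : Rsl S} {w : Fin M → ℝ} (hw : ∀ j, 1 ≤ w j) {b : ℝ}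
    (hlow : ∀ q : ℝ, 0 < q → q ≤ b → AllE (fun _ t' R' => ∀ (j : ℕ) (hj : j ≤ M), j - wsm w j * q ≤ volP t' R' q hj)
      S t R2)
    (hup : ∀ q : ℝ, 0 < q → q ≤ b → ∀ δ : ℝ, 0 < δ → ∃ q' : ℝ, q - δ < q' ∧ q' ≤ q ∧
      AllE (fun _ t' R' => ∀ (j : ℕ) (hj : j ≤ M), volP t' R' q' hj ≤ j - wsm w j * q') S t R2) :
    ∀ q : ℝ, 0 < q → q ≤ b → AllE (fun _ t' R' => NumS q w t' R') S t R2 := by
  intro q hq hqb T p A hA m hm
  have h1 : (m : ℝ) - wsm w m * q ≤ volP (t.im p A hA) R2 q hm := hlow q hq hqb T p A hA m hm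
  have h2 : volP (t.im p A hA) R2 q hm ≤ (m : ℝ) - wsm w m * q := by
    apply le_of_forall_pos_le_add
    intro ε hε
    have hW : 0 ≤ wsm w m := by
      unfold wsm
      refine Finset.sum_nonneg fun i _ => ?_
      split_ifs
      · exact zero_le_one.trans (hw i)
      · exact le_rfl
    obtain ⟨q', h3, h4, h5⟩ := hup q hq hqb (ε / (wsm w m + 1)) (by positivity)
    have h6 : volP (t.im p A hA) R2 q' hm ≤ m - wsm w m * q' := h5 T p A hA m hm
    have h7 : volP (t.im p A hA) R2 q hm ≤ volP (t.im p A hA) R2 q' hm :=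
      volP_mono (S := Sp.im p A) (t.im p A hA) R2 h4 hm
    have h8 : wsm w m * (q - q') ≤ ε := by
      have h9 : q - q' ≤ ε / (wsm w m + 1) := by linarith
      have h10 := mul_le_mul_of_nonneg_left h9 hW
      refine h10.trans ?_
      rw [mul_div_assoc', div_le_iff₀ (by positivity)]
      nlinarith
    linarith
  have h3 : volP (t.im p A hA) R2 q hm = (m : ℝ) - wsm w m * q := le_antisymm h2 h1
  exact h3

end

end Pool.Agent.Helper26.VSV
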