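import Pool.Agent.Helper48.ROK.Cars
import Pool.Agent.Helper71.VIS.Cso

/-! VISIBLE LEAST CARRIERS, one law: if the numbers of a coarser resolution `R'` are those of `R` at all windows `≤ c`, the
least carriers of the window `c` of `(s, R)` are known to `R'`. -/

set_option autoImplicit false

namespace Pool.Agent.Helper26.VSV

open Finset Filter Topology Matrix Pool.Agent.Helper69.RK Pool.Agent.Helper31.EC Pool.Agent.Helper31.EC.Sp
open Pool.Agent.Helper40.EL Pool.Agent.Helper89.LX Pool.Agent.Helper3.LF Pool.Agent.Helper84.MT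
open Pool.Agent.Helper36.AM (Frm STu)
open Pool.Agent.Helper48.ROK (NumS frames_num frm_zero)
open Pool.Agent.Helper71.VIS (Cso)
open Pool.Agent.Helper29.MX

noncomputable section

variable {S T : Sp} {N : ℕ} {E : ℕ → ℕ} {ι : Type}

/-- a literal label: a partition known to it is known to every finer partition -/
theorem nul_ofZ {X Z R' : Rsl S} (hZ : ∀ᶠ k in UF, R' k ⊓ (S.F k).Z ≤ Z k)
    (hN : Nul S fun k => h ((Lab.ofZ Z k).p.map (fc (X k))) (Lab.ofZ Z k).v) :
    Nul S fun k => h (fc (X k)) (fc (R' k)) := by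
  have h1 : Nul S fun k => h (fc (X k)) (fc (Z k)) := hN
  refine h1.of_le (Eventually.of_forall fun _ => h_nonneg _ _) ?_
  filter_upwards [hZ] with k hk
  refine h_anti ?_
  exact fc_le fun ω ω' _ _ z r => hk ⟨r, z⟩

/-- **VISIBILITY FOR ONE LAW** -/
theorem mc_vis [Finite ι] {g : ℕ} {s : MSys S N (lin g) ι} {R R' : Rsl S} (hst : ∀ m, m < N → STu m) (hP : Pt s R')
    (hR : Cso S R R') {w : Fin N → ℝ} (hw : ∀ i, 1 ≤ w i) {c : ℝ} (hc : 0 ≤ c) (hwc : ∀ i, w i * c < 1) (hc1 : c < 1)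
    (hN : ∀ c' : ℝ, 0 < c' → c' ≤ c → NumS c' w s R')
    (hNX : ∀ c' : ℝ, 0 < c' → c' ≤ c → AllE (fun _ t R' => NumS c' w t R') S s R') {X : Rsl S} (hX : Mc s R w c X) :
    Nul S fun k => h (fc (X k)) (fc (R' k)) := by
  rcases hc.eq_or_lt with h0 | h0
  · subst h0
    have h1 : KLb s R 0 (Lab.ofZ (fun k => (⊤ : Setoid (S.F k).Ω))) := (Pool.Agent.Helper48.ROK.mc_zero s R w).kl
    exact nul_ofZ (Z := fun k => (⊤ : Setoid (S.F k).Ω)) (Eventually.of_forall fun k => le_top)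
      (hX.min _ h1 ⟨frm_zero s.Q _ fun i => mul_zero _⟩)
  · obtain ⟨Z, f, z1, z2, -⟩ := frames_num hst hP hw h0 hwc hc1 hN hNX
    exact nul_ofZ z1 (hX.min _ (hR.klb z2) ⟨f⟩)

end

end Pool.Agent.Helper26.VSV
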